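import Pool.Agent.P.MP_9014a2_lc.R.Stm

/-!
Mathias forcing with one stem for each colour: some colour is avoided.
-/

namespace Pool.Agent.P.MP_9014a2_lc.RR

open Pool.Agent.Lib.Helper43 Encodable Filter

namespace Avoid

/-- no subset of `A` of size `n + 1` has colour `c` -/
def Av (f : Finset ℕ → ℕ) (n c : ℕ) (A : Finset ℕ) : Prop :=
  ∀ s ⊆ A, s.card = n + 1 → f s ≠ c

/-- conditions -/
structure Cd (E : Bool → ℕ → ℕ → Prop) (Z Y : ℕ → Bool) (f : Finset ℕ → ℕ) (n : ℕ)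
    (T : Finset ℕ) where
  F : ℕ → Finset ℕ
  X : ℕ → Bool
  U : ℕ → Bool
  hy : Hy E U
  rz : Red Z U
  rx : Red X U
  inf : Inf X
  sb : Sb X Y
  fs : ∀ c, Fs (F c) Y
  av : ∀ c, Av f n c (F c)
  cl : ∀ c, ∀ σ ⊆ F c, σ.Nonempty → σ.card ≤ n → ∀ τ : Finset ℕ, Fs τ X →
    σ.card + τ.card = n + 1 → f (σ ∪ τ) ∈ T

variable {E : Bool → ℕ → ℕ → Prop} {Z Y : ℕ → Bool} {f : Finset ℕ → ℕ} {n : ℕ} {T : Finset ℕ}

/-- extension of conditions -/
def Le (p q : Cd E Z Y f n T) : Prop :=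
  (∀ c, p.F c ⊆ q.F c) ∧ (∀ c, ∀ x ∈ q.F c, x ∈ p.F c ∨ p.X x = true) ∧ Sb q.X p.X

/-- a valid finite set is added to one stem -/
theorem grow (hC : Coh f n T Y) (p : Cd E Z Y f n T) {c : ℕ} (hc : c ∉ T) {ρ : Finset ℕ}
    (h1 : Fs ρ p.X) (h2 : Av f n c ρ) (u : ℕ) :
    ∃ q, Le p q ∧ q.F c = p.F c ∪ ρ ∧ ∀ x, q.X x = true → u < x := by
  classical
  have hA : Fs (p.F c ∪ ρ) Y := fun x hx =>
    (Finset.mem_union.1 hx).elim (p.fs c x) fun h => p.sb x (h1 x h)
  have h3 : ∀ σ : Finset ℕ, ∃ b, σ ⊆ p.F c ∪ ρ → σ.Nonempty → σ.card ≤ n →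
      ∀ τ : Finset ℕ, Fs τ Y → (∀ y ∈ τ, b < y) → σ.card + τ.card = n + 1 → f (σ ∪ τ) ∈ T := by
    intro σ
    by_cases h : σ ⊆ p.F c ∪ ρ ∧ σ.Nonempty ∧ σ.card ≤ n
    · obtain ⟨b, hb⟩ := hC σ (hA.sub h.1) h.2.1 h.2.2
      exact ⟨b, fun _ _ _ => hb⟩
    · exact ⟨0, fun a b c => (h ⟨a, b, c⟩).elim⟩
  choose b hb using h3
  have hav : Av f n c (p.F c ∪ ρ) := by
    intro s hs hn
    by_cases e1 : s ⊆ p.F c
    · exact p.av c s e1 hn
    by_cases e2 : s ⊆ ρ
    · exact h2 s e2 hn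
    obtain ⟨x, x1, x2⟩ := Finset.not_subset.1 e1
    obtain ⟨y, y1, y2⟩ := Finset.not_subset.1 e2
    have e3 : (s ∩ p.F c).card + (s \ p.F c).card = n + 1 := by
      rw [Finset.card_inter_add_card_sdiff, hn]
    have e4 : 0 < (s \ p.F c).card := Finset.card_pos.2 ⟨x, Finset.mem_sdiff.2 ⟨x1, x2⟩⟩
    have e5 := p.cl c (s ∩ p.F c) Finset.inter_subset_right
      ⟨y, Finset.mem_inter.2 ⟨y1, (Finset.mem_union.1 (hs y1)).resolve_right y2⟩⟩ (by omega)
      (s \ p.F c) (fun z hz => h1 z ((Finset.mem_union.1 (hs (Finset.mem_sdiff.1 hz).1)).resolve_left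
        (Finset.mem_sdiff.1 hz).2)) e3
    rw [Finset.union_comm, Finset.sdiff_union_inter] at e5
    exact fun h => hc (h ▸ e5)
  let B := max u ((p.F c ∪ ρ).powerset.sup b)
  refine ⟨⟨Function.update p.F c (p.F c ∪ ρ), tl p.X B, p.U, p.hy, p.rz, tl_red p.rx B,
    tl_inf p.inf B, (tl_sb _ _).trans p.sb, fun c' => ?_, fun c' => ?_, fun c' => ?_⟩,
    ⟨fun c' => ?_, fun c' => ?_, tl_sb _ _⟩, Function.update_self .., fun x hx => ?_⟩
  · rcases eq_or_ne c' c with rfl | h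
    · rwa [Function.update_self]
    · rw [Function.update_of_ne h]; exact p.fs c'
  · rcases eq_or_ne c' c with rfl | h
    · rwa [Function.update_self]
    · rw [Function.update_of_ne h]; exact p.av c'
  · rcases eq_or_ne c' c with rfl | h
    · rw [Function.update_self]
      exact fun σ a1 a2 a3 τ a4 a5 => hb σ a1 a2 a3 τ (a4.mono ((tl_sb _ _).trans p.sb))
        (fun y hy => ((Finset.le_sup (f := b) (Finset.mem_powerset.2 a1)).trans
          (le_max_right u _)).trans_lt (tl_iff.1 (a4 y hy)).2) a5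
    · rw [Function.update_of_ne h]
      exact fun σ a1 a2 a3 τ a4 a5 => p.cl c' σ a1 a2 a3 τ (a4.mono (tl_sb _ _)) a5
  · show _ ⊆ Function.update p.F c _ c'
    rcases eq_or_ne c' c with rfl | h
    · rw [Function.update_self]; exact Finset.subset_union_left
    · rw [Function.update_of_ne h]
  · show ∀ x ∈ Function.update p.F c _ c', _
    rcases eq_or_ne c' c with rfl | h
    · rw [Function.update_self]
      exact fun x hx => (Finset.mem_union.1 hx).imp_right (h1 x)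
    · rw [Function.update_of_ne h]
      exact fun _ => Or.inl
  · exact (le_max_left u _).trans_lt (tl_iff.1 hx).2

/-- the colouring read off from an oracle -/
def cy (w : ℕ) (V : ℕ → Bool) (s : Finset ℕ) : ℕ :=
  (((List.range w).filter fun i => V (Nat.pair i (fc s))).head?).getD w

theorem cy_le (w : ℕ) (V : ℕ → Bool) (s : Finset ℕ) : cy w V s < w + 1 := by
  unfold cy
  cases h : ((List.range w).filter fun i => V (Nat.pair i (fc s))).head? with
  | none => simp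
  | some i =>
    have := List.mem_range.1 (List.mem_filter.1 (List.mem_of_mem_head? h)).1
    simp only [Option.getD_some]
    omega

theorem cy_eq {w i : ℕ} {V : ℕ → Bool} {s : Finset ℕ} (hi : i < w)
    (h1 : V (Nat.pair i (fc s)) = true) (h2 : ∀ k < i, ¬ V (Nat.pair k (fc s)) = true) :
    cy w V s = i := by
  have : ((List.range w).filter fun i => V (Nat.pair i (fc s))).head? = some i := by
    rw [List.head?_filter, List.find?_range_eq_some]
    exact ⟨h1, List.mem_range.2 hi, fun k hk => by simpa using h2 k hk⟩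
  rw [cy, this, Option.getD_some]

/-- `ρ` avoids the colour `i` of the colouring read off from `V` -/
def Vd (n : ℕ) (V : ℕ → Bool) (i : ℕ) (ρ : Finset ℕ) : Prop :=
  ∀ s ⊆ ρ, ¬ s.card = n + 1 ∨ V (Nat.pair i (fc s)) = false ∨
    ∃ k, k < i ∧ V (Nat.pair k (fc s)) = true

/-- the disjunctive requirement -/
theorem decide_one {d : ℕ} (hE : Dn E) (hW : WP E (n + 1) d) (hC : Coh f n T Y)
    (p : Cd E Z Y f n T) (j : Bool) (L : List (ℕ × ℕ)) (h1 : d < L.length)
    (h2 : (L.map Prod.fst).Nodup) (h3 : ∀ x ∈ L, x.1 ∉ T) :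
    ∃ q, Le p q ∧ ∃ x ∈ L, ∀ G, Ex (q.F x.1) q.X G → Req E Z G j x.2 := by
  let st : List (Finset ℕ) := L.map fun x => p.F x.1
  let cd : List ℕ := L.map Prod.snd
  have est : ∀ i (hi : i < L.length), st.getD i ∅ = p.F L[i].1 := fun i hi => by simp [st, hi]
  have ecd : ∀ i (hi : i < L.length), cd.getD i 0 = L[i].2 := fun i hi => by simp [cd, hi]
  let P : (ℕ → Bool) → ℕ × ℕ → Prop := fun V x => ∃ y : ℕ × Finset ℕ,
    ((y.1 < L.length ∧ Fs y.2 p.X) ∧
      Hl Z (ch (st.getD y.1 ∅ ∪ y.2)) (Nat.pair (cd.getD y.1 0) (Nat.pair x.1 x.2))) ∧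
    Vd n V y.1 y.2
  have hP : S1 p.U P := by
    refine S1.ex (S1.and (S1.of_sig (Sig.and (Sig.of_di (DI.and (by fun_prop)
      (di_fs (by fun_prop) p.rx))) (sig_hl p.rz (by fun_prop) (by fun_prop)))) ?_)
    exact S1.allSub (S1.or (S1.of_di (by fun_prop)) (S1.or (S1.query (by fun_prop) (by fun_prop))
      (S1.ex (S1.and (S1.of_di (by fun_prop)) (S1.query (by fun_prop) (by fun_prop))))))
      (by fun_prop)
  rcases key p.hy hP j with ⟨m, V0, h⟩ | ⟨m, W, h4, h⟩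
  · have hQ : Op p.U fun V => ∃ v, P V (m, v) :=
      S1.ex (hP.comp (g := fun x : Unit × ℕ => (m, x.2)) (by fun_prop))
    obtain ⟨V, hV, hy⟩ := basis hE p.hy hQ ⟨V0, fun ⟨v, hv⟩ => h v hv⟩
    have hv : CI (join p.U V) V := red_right _ _
    obtain ⟨H, a1, a2, a3, S, a4, a5⟩ := hW _ p.X hy (p.rx.trans (red_left _ _)) p.inf
      (cy L.length V) _ (by unfold cy; fun_prop) (cy_le _ V)
    obtain ⟨i, hi, hS⟩ := Finset.exists_mem_notMem_of_card_lt_card
      (s := S) (t := Finset.range L.length) (by rw [Finset.card_range]; omega)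
    rw [Finset.mem_range] at hi
    refine ⟨⟨p.F, H, _, a3, p.rz.trans (red_ll _ _ _), red_right _ _, a2, a1.trans p.sb, p.fs, p.av,
      fun c σ b1 b2 b3 τ b4 b5 => p.cl c σ b1 b2 b3 τ (b4.mono a1) b5⟩,
      ⟨fun _ => subset_rfl, fun _ _ => Or.inl, a1⟩, L[i], List.getElem_mem hi,
      fun G hG => Or.inl ⟨m, fun v hv => ?_⟩⟩
    obtain ⟨ρ, b1, -, b2⟩ := hv.stem hG
    refine hV ⟨v, (i, ρ), ⟨⟨hi, b1.mono a1⟩, by rwa [est i hi, ecd i hi]⟩, fun s hs => ?_⟩
    by_contra hn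
    simp only [not_or, not_not, not_exists, not_and, Bool.not_eq_false] at hn
    exact hS (cy_eq hi hn.2.1 hn.2.2 ▸ a5 s hn.1 (b1.sub hs))
  · obtain ⟨v, hv, ⟨i, ρ⟩, ⟨⟨hi, b1⟩, b2⟩, b3⟩ :=
      h fun x => decide (f (fd x.unpair.2) = (L.map Prod.fst).getD x.unpair.1 0)
    replace hi : i < L.length := hi
    rw [est i hi, ecd i hi] at b2
    obtain ⟨u, hu⟩ := b2.force
    have e : ∀ k (hk : k < L.length), (L.map Prod.fst).getD k 0 = L[k].1 := fun k hk => by
      simp [hk]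
    obtain ⟨q, c1, c2, c3⟩ := grow hC p (h3 _ (List.getElem_mem hi)) b1 (fun s hs hn hf => by
      rcases b3 s hs with b4 | b4 | ⟨k, hk, b4⟩
      · exact b4 hn
      · simp only [Nat.unpair_pair, fd_fc, e i hi, decide_eq_false_iff_not] at b4
        exact b4 hf
      · simp only [Nat.unpair_pair, fd_fc, e k (hk.trans hi), decide_eq_true_eq] at b4
        have := (List.Nodup.getElem_inj_iff h2 (i := k) (j := i) (hi := by simpa using hk.trans hi)
          (hj := by simpa using hi)).1 (by simpa using b4.symm.trans hf)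
        omega) u
    exact ⟨q, c1, L[i], List.getElem_mem hi, fun G hG =>
      Or.inr ⟨m, v, hu _ G c3 (c2 ▸ hG), hE _ _ _ _ hv h4⟩⟩

end Avoid

open Avoid in
theorem all_avoid : S_avoid := by
  classical
  intro E n d hE hW Z Y hZ hY hi f T S hTS hS hC
  have hT : ∀ c ∈ S, c ∉ T := fun c hc => Finset.disjoint_right.1 hTS hc
  obtain ⟨s, -, s1, s2⟩ := exists_generic (P := Cd E Z Y f n T)
    (ι := (Bool × List (ℕ × ℕ)) ⊕ (ℕ × ℕ × ℕ)) Le
    (fun i q => match i with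
      | .inl i => d < i.2.length → (i.2.map Prod.fst).Nodup → (∀ x ∈ i.2, x.1 ∉ T) →
          ∃ x ∈ i.2, ∀ G, Ex (q.F x.1) q.X G → Req E Z G i.1 x.2
      | .inr i => i.1 ≠ i.2.1 → i.1 ∉ T → i.2.1 ∉ T → ∃ x, i.2.2 < x ∧ (x ∈ q.F i.1 ∨ x ∈ q.F i.2.1))
    (fun i p => by
      have hp : Le p p := ⟨fun _ => subset_rfl, fun _ _ => Or.inl, Sb.refl _⟩
      rcases i with ⟨j, L⟩ | ⟨a, b, m⟩
      · by_cases h : d < L.length ∧ (L.map Prod.fst).Nodup ∧ ∀ x ∈ L, x.1 ∉ T
        · obtain ⟨q, h1, h2⟩ := decide_one hE hW hC p j L h.1 h.2.1 h.2.2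
          exact ⟨q, h1, fun _ _ _ => h2⟩
        · exact ⟨p, hp, fun a b c => (h ⟨a, b, c⟩).elim⟩
      · by_cases h : a ≠ b ∧ a ∉ T ∧ b ∉ T
        · obtain ⟨x, h1, h2⟩ := p.inf.exists_gt m
          have h3 : ∀ c, f {x} ≠ c → Av f n c {x} := fun c hc s hs hn => by
            rcases Finset.subset_singleton_iff.1 hs with rfl | rfl
            · simp at hn
            · exact hc
          have h4 : Fs {x} p.X := fun y hy => Finset.mem_singleton.1 hy ▸ h1
          by_cases h5 : f {x} = a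
          · obtain ⟨q, c1, c2, -⟩ := grow hC p h.2.2 h4 (h3 b (h5 ▸ h.1)) 0
            exact ⟨q, c1, fun _ _ _ => ⟨x, h2, Or.inr (by simp [c2])⟩⟩
          · obtain ⟨q, c1, c2, -⟩ := grow hC p h.2.1 h4 (h3 a h5) 0
            exact ⟨q, c1, fun _ _ _ => ⟨x, h2, Or.inl (by simp [c2])⟩⟩
        · exact ⟨p, hp, fun a b c => (h ⟨a, b, c⟩).elim⟩)
    ⟨fun _ => ∅, Y, Z, hZ, Red.refl Z, hY, hi, Sb.refl _, fun _ _ h => by simp at h,
      fun c s hs hn => by simp [Finset.subset_empty.1 hs] at hn,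
      fun c σ h1 h2 => by simp [Finset.subset_empty.1 h1] at h2⟩
  choose G g1 g2 g3 using fun c => exists_limit (fun t => (s t).F c) (fun t => (s t).X)
    (fun t => (s1 t).1 c) (fun t => (s1 t).2.1 c) fun t => (s1 t).2.2
  have b1 : ∀ j, (S.filter fun c => ∃ e, ¬ Req E Z (G c) j e).card ≤ d := fun j => by
    by_contra hn
    have h0 : ∀ c, ∃ e, (∃ e, ¬ Req E Z (G c) j e) → ¬ Req E Z (G c) j e := fun c => by
      by_cases h : ∃ e, ¬ Req E Z (G c) j e
      · exact h.imp fun _ h _ => h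
      · exact ⟨0, fun h' => (h h').elim⟩
    choose e he using h0
    obtain ⟨t, ht⟩ := s2 (.inl (j, (S.filter fun c => ∃ e, ¬ Req E Z (G c) j e).toList.map
      fun c => (c, e c)))
    obtain ⟨x, hx, h⟩ := ht (by simpa using hn)
      (by simpa [Function.comp_def] using Finset.nodup_toList _)
      (List.forall_mem_map.2 fun c hc => hT c (Finset.mem_filter.1 (Finset.mem_toList.1 hc)).1)
    obtain ⟨c, hc, rfl⟩ := List.mem_map.1 hx
    exact he c (Finset.mem_filter.1 (Finset.mem_toList.1 hc)).2 (h _ (g2 c t))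
  have b2 : (S.filter fun c => ¬ Inf (G c)).card ≤ 1 := by
    refine Finset.card_le_one.2 fun a ha b hb => by_contra fun hn => ?_
    rw [Finset.mem_filter] at ha hb
    obtain ⟨m, hm⟩ := ((Set.not_infinite.1 ha.2).union (Set.not_infinite.1 hb.2)).bddAbove
    obtain ⟨t, ht⟩ := s2 (.inr (a, b, m))
    obtain ⟨x, h1, h2⟩ := ht hn (hT a ha.1) (hT b hb.1)
    exact absurd (hm (h2.imp (fun h => (g1 a x).2 ⟨t, h⟩) fun h => (g1 b x).2 ⟨t, h⟩)) (not_le.2 h1)
  obtain ⟨c, hc, h⟩ := Finset.exists_mem_notMem_of_card_lt_card (t := S)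
    (s := ((S.filter fun c => ∃ e, ¬ Req E Z (G c) false e) ∪
      S.filter fun c => ∃ e, ¬ Req E Z (G c) true e) ∪ S.filter fun c => ¬ Inf (G c)) (by
    have := b1 false
    have := b1 true
    refine ((Finset.card_union_le _ _).trans
      (Nat.add_le_add_right (Finset.card_union_le _ _) _)).trans_lt ?_
    omega)
  simp only [Finset.mem_union, Finset.mem_filter, hc, true_and, not_or, not_exists, not_not] at h
  refine ⟨c, hc, G c, fun x hx => ?_, h.2, hy_of_req fun j e => ?_, fun u h1 h2 => ?_⟩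
  · obtain ⟨t, ht⟩ := (g1 c x).1 hx
    exact (s t).fs c x ht
  · cases j
    exacts [h.1.1 e, h.1.2 e]
  · obtain ⟨t, ht⟩ := g3 c u h2
    exact (s t).av c u ht h1

end Pool.Agent.P.MP_9014a2_lc.RR
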