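import Pool.Agent.P.MP_9014a2_lc.R.Iface

/-!
A basis theorem for closed classes and a Mathias construction, both preserving the targets.
-/

namespace Pool.Agent.P.MP_9014a2_lc.RR

open Pool.Agent.Lib.Helper43 Encodable Filter

variable {E : Bool → ℕ → ℕ → Prop} {X Y Z : ℕ → Bool}

/-- the basic dichotomy -/
theorem key (hZ : Hy E Z) {P : (ℕ → Bool) → ℕ × ℕ → Prop} (hP : S1 Z P) (j : Bool) :
    (∃ n Y, ∀ v, ¬ P Y (n, v)) ∨ ∃ n V, E j n V ∧ ∀ Y, ∃ v ≤ V, P Y (n, v) := by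
  by_cases h : ∃ n Y, ∀ v, ¬ P Y (n, v)
  · exact Or.inl h
  simp only [not_exists, not_forall, not_not] at h
  have h1 : Sig Z fun x : ℕ × ℕ => ∀ Y, ∃ v, v ≤ x.2 ∧ P Y (x.1, v) :=
    S1.forall_sig (S1.ex (S1.and (S1.of_di (by fun_prop))
      (hP.comp (g := fun x : (ℕ × ℕ) × ℕ => (x.1.1, x.2)) (by fun_prop))))
  obtain ⟨q, -, e, m⟩ := hP.exists_mono
  obtain ⟨n, V, h2, h3⟩ := hZ.sig (R := fun n V => ∀ Y, ∃ v, v ≤ V ∧ P Y (n, v)) h1 (fun n => by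
    obtain ⟨N, hN⟩ := compact_seg (q := fun τ => ∃ v ≤ τ.length, q ((n, v), τ)) fun Y => by
      obtain ⟨v, hv⟩ := h n Y
      obtain ⟨s, hs⟩ := (e _ _).1 hv
      exact ⟨max v s, v, by simp, m _ _ _ _ (le_max_right _ _) hs⟩
    refine ⟨N, fun Y => ?_⟩
    obtain ⟨s, hs, v, hv, h4⟩ := hN Y
    exact ⟨v, (seg_length Y s ▸ hv).trans hs, (e _ _).2 ⟨s, h4⟩⟩) j
  exact Or.inr ⟨n, V, h3, h2⟩

/-- a nonempty closed class has a member that preserves the targets -/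
theorem basis (hE : Dn E) (hZ : Hy E Z) {P : (ℕ → Bool) → Prop} (hP : Op Z P)
    (hne : ∃ Y, ¬ P Y) : ∃ Y, ¬ P Y ∧ Hy E (join Z Y) := by
  obtain ⟨s, s0, s1, s2⟩ := exists_generic (P := {Q : (ℕ → Bool) → Prop // Op Z Q ∧ ∃ Y, ¬ Q Y})
    (ι := Bool × ℕ) (fun p q => ∀ Y, p.1 Y → q.1 Y)
    (fun i q => ∀ Y, ¬ q.1 Y → Req E Z Y i.1 i.2) (fun ⟨j, c⟩ ⟨Q, hQ, hn⟩ => by
      have h1 : S1 Z fun Y (x : ℕ × ℕ) => Hl Z Y (Nat.pair c (Nat.pair x.1 x.2)) :=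
        s1_hl (by fun_prop)
      rcases key hZ (S1.or (hQ.comp (g := fun _ : ℕ × ℕ => ()) (by fun_prop)) h1) j with
        ⟨n, Y, h⟩ | ⟨n, V, h2, h⟩
      · refine ⟨⟨fun Y => Q Y ∨ ∃ v, Hl Z Y (Nat.pair c (Nat.pair n v)),
          S1.or hQ (S1.ex (s1_hl (by fun_prop))), Y, ?_⟩, fun _ => Or.inl, fun Y' h' =>
            Or.inl ⟨n, fun v hv => h' (Or.inr ⟨v, hv⟩)⟩⟩
        rintro (h3 | ⟨v, h3⟩)
        · exact h 0 (Or.inl h3)
        · exact h v (Or.inr h3)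
      · refine ⟨⟨Q, hQ, hn⟩, fun _ h => h, fun Y hY => ?_⟩
        obtain ⟨v, h3, h4⟩ := h Y
        exact Or.inr ⟨n, v, h4.resolve_left hY, hE _ _ _ _ h3 h2⟩) ⟨P, hP, hne⟩
  have mono : ∀ n m, n ≤ m → ∀ Y, (s n).1 Y → (s m).1 Y := fun n m h => by
    induction h with
    | refl => exact fun _ h => h
    | step _ ih => exact fun Y h => s1 _ Y (ih Y h)
  choose q hq e m using fun t => S1.exists_mono (s t).2.1
  obtain ⟨Y, hY⟩ : ∃ Y, ∀ t, ¬ (s t).1 Y := by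
    by_contra hc
    simp only [not_exists, not_forall, not_not] at hc
    obtain ⟨N, hN⟩ := compact_seg (q := fun τ => ∃ t ≤ τ.length, q t ((), τ)) fun Y => by
      obtain ⟨t, ht⟩ := hc Y
      obtain ⟨u, hu⟩ := (e t Y ()).1 ht
      exact ⟨max t u, t, by simp, m _ _ _ _ _ (le_max_right _ _) hu⟩
    obtain ⟨Y, hY⟩ := (s N).2.2
    obtain ⟨u, hu, t, ht, h⟩ := hN Y
    exact hY (mono t N ((seg_length Y u ▸ ht).trans hu) Y ((e t Y ()).2 ⟨u, h⟩))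
  refine ⟨Y, by simpa [s0] using hY 0, hy_of_req fun j c => ?_⟩
  obtain ⟨t, ht⟩ := s2 (j, c)
  exact ht Y (hY t)

/-- Mathias conditions with one stem -/
structure C1 (E : Bool → ℕ → ℕ → Prop) (Z : ℕ → Bool) where
  F : Finset ℕ
  X : ℕ → Bool
  U : ℕ → Bool
  hy : Hy E U
  rz : Red Z U
  rx : Red X U
  inf : Inf X

/-- a generic set is almost contained in a member of each of countably many dense families -/
theorem gen (hZ : Hy E Z) (hX : Red X Z) (hi : Inf X) {ι : Type} [Countable ι]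
    (D : ι → (ℕ → Bool) → Prop)
    (hD : ∀ i U A, Hy E U → Red Z U → Red A U → Inf A →
      ∃ B, Sb B A ∧ Inf B ∧ Hy E (join U B) ∧ D i B) :
    ∃ G, Sb G X ∧ Inf G ∧ Hy E (join Z G) ∧
      ∀ i, ∃ B b, D i B ∧ ∀ x, b < x → G x = true → B x = true := by
  obtain ⟨s, s0, s1, s2⟩ := exists_generic (P := C1 E Z) (ι := ι ⊕ (Bool × ℕ) ⊕ ℕ)
    (fun p q => p.F ⊆ q.F ∧ (∀ x ∈ q.F, x ∈ p.F ∨ p.X x = true) ∧ Sb q.X p.X)
    (fun i q => match i with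
      | .inl i => D i q.X
      | .inr (.inl i) => ∀ G, Ex q.F q.X G → Req E Z G i.1 i.2
      | .inr (.inr n) => ∃ x ∈ q.F, n < x) (fun i p => by
      rcases i with i | ⟨j, c⟩ | n
      · obtain ⟨B, h1, h2, h3, h4⟩ := hD i p.U p.X p.hy p.rz p.rx p.inf
        exact ⟨⟨p.F, B, _, h3, p.rz.trans (red_left _ _), red_right _ _, h2⟩,
          ⟨subset_rfl, fun _ => Or.inl, h1⟩, h4⟩
      · by_cases h : ∀ n, ∃ v, ∃ ρ : Finset ℕ, Fs ρ p.X ∧
          Hl Z (ch (p.F ∪ ρ)) (Nat.pair c (Nat.pair n v))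
        · have h0 : Sig p.U fun x : (ℕ × ℕ) × Finset ℕ => Fs x.2 p.X ∧
              Hl Z (ch (p.F ∪ x.2)) (Nat.pair c (Nat.pair x.1.1 x.1.2)) :=
            Sig.and (Sig.of_di (di_fs (by fun_prop) p.rx))
              (sig_hl p.rz (by fun_prop) (by fun_prop))
          obtain ⟨n, v, ⟨ρ, h1, h2⟩, h3⟩ := p.hy.sig (Sig.ex h0) h j
          obtain ⟨u, hu⟩ := h2.force
          exact ⟨⟨p.F ∪ ρ, tl p.X u, p.U, p.hy, p.rz, tl_red p.rx u, tl_inf p.inf u⟩,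
            ⟨Finset.subset_union_left, fun x hx => (Finset.mem_union.1 hx).imp_right (h1 x),
              tl_sb _ _⟩, fun G hG => Or.inr ⟨n, v, hu _ G (fun x hx => (tl_iff.1 hx).2) hG, h3⟩⟩
        · simp only [not_forall, not_exists, not_and] at h
          obtain ⟨n, h⟩ := h
          refine ⟨p, ⟨subset_rfl, fun _ => Or.inl, Sb.refl _⟩, fun G hG => Or.inl ⟨n, fun v hv => ?_⟩⟩
          obtain ⟨ρ, h1, -, h2⟩ := hv.stem hG
          exact h v ρ h1 h2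
      · obtain ⟨x, h1, h2⟩ := p.inf.exists_gt n
        exact ⟨⟨insert x p.F, p.X, p.U, p.hy, p.rz, p.rx, p.inf⟩, ⟨Finset.subset_insert _ _,
          fun y hy => (Finset.mem_insert.1 hy).symm.imp_right fun h : y = x => h ▸ h1, Sb.refl _⟩,
          x, Finset.mem_insert_self _ _, h2⟩) ⟨∅, X, Z, hZ, Red.refl Z, hX, hi⟩
  obtain ⟨G, g1, g2, -⟩ := exists_limit (fun n => (s n).F) (fun n => (s n).X) (fun n => (s1 n).1)
    (fun n => (s1 n).2.1) fun n => (s1 n).2.2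
  refine ⟨G, fun x hx => ?_, Set.infinite_of_forall_exists_gt fun n => ?_,
    hy_of_req fun j c => ?_, fun i => ?_⟩
  · simpa [s0] using (g2 0).2 x hx
  · obtain ⟨t, x, h1, h2⟩ := s2 (.inr (.inr n))
    exact ⟨x, (g1 x).2 ⟨t, h1⟩, h2⟩
  · obtain ⟨t, ht⟩ := s2 (.inr (.inl (j, c)))
    exact ht G (g2 t)
  · obtain ⟨t, ht⟩ := s2 (.inl i)
    refine ⟨_, (s t).F.sup id, ht, fun x h1 h2 => ((g2 t).2 x h2).resolve_left fun h3 => ?_⟩
    exact absurd (Finset.le_sup (f := id) h3) (not_le.2 h1)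

end Pool.Agent.P.MP_9014a2_lc.RR
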