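import Pool.Agent.P.MP_9014a2_lc.R.Stm
import Pool.Agent.P.MP_9014a2_lc.Ideal
import Pool.Agent.P.MP_9014a2_lc.Low
import Pool.Agent.P.MP_9014a2_lc.Approx
import Pool.Agent.P.MP_9014a2_lc.Jock
import Pool.Agent.P.MP_9014a2_lc.Limit

/-!
Closing off to a Scott ideal, and two witnesses.
-/

namespace Pool.Agent.P.MP_9014a2_lc.RR

open Pool.Agent.Lib.Helper43 Encodable

namespace Build

/-- the set coded by a function on lists -/
def tr (F : List ℕ → ℕ) : ℕ → Bool := fun n => decide (F [n] = 1)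

/-- a solution joined with a path -/
def Sol2 (Sol : ℕ → (Finset ℕ → ℕ) → (ℕ → Bool) → Prop) (F : List ℕ → ℕ) (H : ℕ → Bool) : Prop :=
  ∃ A Z, H = join A Z ∧ Sol (F []) (fun s => F [0, fc s]) A ∧ (IsTree (tr F) →
    {s : List Bool | tr F (encode s) = true}.Infinite → ∀ n, tr F (encode (seg Z n)) = true)

theorem path {L : Set (ℕ → Bool)} (h1 : ∀ X ∈ L, ∀ Y, Red Y X → Y ∈ L)
    (h2 : ∀ X ∈ L, ∀ P, Op X P → (∃ Z, ¬ P Z) → ∃ Z, ¬ P Z ∧ join X Z ∈ L)
    {X T : ℕ → Bool} (hX : X ∈ L) (hT : Red T X) :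
    ∃ Z, join X Z ∈ L ∧ (IsTree T →
      {s : List Bool | T (encode s) = true}.Infinite → ∀ n, T (encode (seg Z n)) = true) := by
  by_cases h : IsTree T ∧ {s : List Bool | T (encode s) = true}.Infinite
  · obtain ⟨Z0, h0⟩ := konig h.1 h.2
    have h3 : CI X T := hT
    have h4 : CI X fun x : Unit × List Bool => encode x.2 :=
      CI.of_comp (Computable.encode.comp Computable.snd)
    have hP : Op X fun Z => ∃ n, ¬ T (encode (seg Z n)) = true :=
      ⟨fun x => ¬ T (encode x.2) = true, Sig.of_di (by fun_prop), fun _ _ => Iff.rfl⟩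
    obtain ⟨Z, hZ, hr⟩ := h2 X hX _ hP ⟨Z0, fun ⟨n, hn⟩ => hn (h0 n)⟩
    exact ⟨Z, hr, fun _ _ n => by_contra fun hn => hZ ⟨n, hn⟩⟩
  · exact ⟨X, h1 X hX _ ((Red.refl X).join (Red.refl X)), fun a b => (h ⟨a, b⟩).elim⟩

end Build

open Build

theorem all_build : S_build := by
  intro L Sol h0 h1 h2 h3
  obtain ⟨I, hI, hL, hsol⟩ := all_ideal L (Sol2 Sol) h0 h1 fun X hX F hF => by
    have hf : CI X fun s : Finset ℕ => F [0, fc s] :=
      hF.comp (g := fun s : Finset ℕ => [0, fc s]) (by fun_prop)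
    obtain ⟨A, a1, a2⟩ := h3 X hX (F []) _ hf
    have hT : Red (tr F) X := by
      unfold tr Red
      fun_prop
    obtain ⟨Z, z1, z2⟩ := path h1 h2 a2 (hT.trans (red_left X A))
    exact ⟨join A Z, ⟨A, Z, rfl, a1, z2⟩, h1 _ z1 _
      (((red_lr X A Z).join (red_right _ _)).join (red_ll X A Z))⟩
  refine ⟨I, ⟨hI, fun T hT t1 t2 => ?_⟩, hL, fun X hX n f hf => ?_⟩
  · have h4 : CI T T := CI.oracle
    have hF : CI T fun l : List ℕ => if T (l.getD 0 0) = true then 1 else 0 := by fun_prop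
    obtain ⟨H, hH, A, Z, rfl, -, h5⟩ := hsol T hT _ hF
    have e : tr (fun l : List ℕ => if T (l.getD 0 0) = true then 1 else 0) = T :=
      funext fun n => by cases h : T n <;> simp [tr, h]
    rw [e] at h5
    exact ⟨Z, hI.red hH (red_right _ _), h5 t1 t2⟩
  · have h4 : CI X fun l : List ℕ => f (fd (l.getD 1 0)) :=
      hf.comp (g := fun l : List ℕ => fd (l.getD 1 0)) (by fun_prop)
    have hF : CI X fun l : List ℕ => if l.length = 0 then n else f (fd (l.getD 1 0)) := by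
      fun_prop
    obtain ⟨H, hH, A, Z, rfl, h5, -⟩ := hsol X hX _ hF
    refine ⟨A, hI.red hH (red_left _ _), ?_⟩
    simpa using h5

theorem all_wit2 (hb : S_build) (hl : S_low2q) : S_wit2 := by
  obtain ⟨I, hI, hL, hsol⟩ := hb
    {X | Red (jump (jump X)) (jump (jump fun _ => false))}
    (fun _ f H => (∃ q, ∀ s, f s < q) → Inf H ∧ Few 1 f 2 H) ⟨_, Red.refl _⟩
    (fun X hX Y h => h.jump.jump.trans hX)
    (fun X hX P hP hne =>
      let ⟨Z, a, b⟩ := all_low X P hP hne; ⟨Z, a, b.jump.trans hX⟩)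
    (fun X hX _ f hf => by
      by_cases h : ∃ q, ∀ s, f s < q
      · obtain ⟨q, hq⟩ := h
        obtain ⟨H, a, b, c⟩ := hl X f q hf hq
        exact ⟨H, fun _ => ⟨a, b⟩, c.trans hX⟩
      · exact ⟨X, fun h' => (h h').elim, ((Red.refl X).join (Red.refl X)).jump.jump.trans hX⟩)
  refine ⟨I, hI, fun X hX f hf q hq => ?_, ?_⟩
  · obtain ⟨H, hH, h⟩ := hsol X hX 0 f hf
    exact ⟨H, hH, h ⟨q, hq⟩⟩
  · obtain ⟨F, hF, h⟩ := all_tsLow all_approx (all_jock all_approx) 1 fun _ => false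
    exact Model.not_t2 (k := 2) hI.toTuringIdeal hF
      (fun A hA => h A (((red_jump A).trans (red_jump _)).trans (hL hA))) (by norm_num)

theorem all_wit3 (hb : S_build) (hs : S_sp) (hi : S_inst) : S_wit3 := by
  obtain ⟨E, g, hE, h0, hg, hg2, hne⟩ := hi
  choose d hd using fun n => hs E n hE
  obtain ⟨I, hI, hL, hsol⟩ := hb {X | Hy E X}
    (fun n f H => (∃ q, ∀ s, f s < q) → Inf H ∧ Few (d n) f n H) ⟨_, h0⟩
    (fun X hX Y h => Hy.mono hX h) (fun X hX P hP h => basis hE hX hP h)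
    (fun X hX n f _ => by
      by_cases h : ∃ q, ∀ s, f s < q
      · obtain ⟨q, hq⟩ := h
        obtain ⟨H, -, a, b, c⟩ := hd n X (fun _ => true) hX (CI.const true)
          (by simpa [Inf] using Set.infinite_univ) f q hq
        exact ⟨H, fun _ => ⟨a, c⟩, b⟩
      · exact ⟨X, fun h' => (h h').elim, Hy.join hX (Red.refl X)⟩)
  refine ⟨I, hI, fun n => ⟨d n, fun X hX f hf q hq => ?_⟩, fun h => ?_⟩
  · obtain ⟨H, hH, h⟩ := hsol X hX n f hf
    exact ⟨H, hH, h ⟨q, hq⟩⟩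
  · obtain ⟨X, hX⟩ := hI.toTuringIdeal.nonempty
    obtain ⟨A, hA, a, b⟩ := h X hX g (hg.mono (CI.const false)) 2 hg2
    exact hne A a b (hL hA)

end Pool.Agent.P.MP_9014a2_lc.RR
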