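import Pool.Agent.P.MP_9014a2_lc.R.Stm

/-!
Few colours on split sets.
-/

namespace Pool.Agent.P.MP_9014a2_lc.RR

open Pool.Agent.Lib.Helper43 Encodable Filter

namespace Coh

variable {E : Bool → ℕ → ℕ → Prop} {n d : ℕ} {Z X : ℕ → Bool}

/-- every small set has few limit colours -/
theorem step1 (h : ∀ s, 1 ≤ s → s ≤ n → SP E s d) (hZ : Hy E Z) (hX : Red X Z) (hi : Inf X)
    (f : Finset ℕ → ℕ) (q : ℕ) (hq : ∀ s, f s < q) :
    ∃ G, Sb G X ∧ Inf G ∧ Hy E (join Z G) ∧ ∀ σ : Finset ℕ, ∃ I : Finset ℕ, ∃ b : ℕ,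
      I.card ≤ d ∧ I ⊆ Finset.range q ∧ (1 ≤ σ.card → σ.card ≤ n → ∀ τ : Finset ℕ, Fs τ G →
        (∀ y ∈ τ, b < y) → σ.card + τ.card = n + 1 → f (σ ∪ τ) ∈ I) := by
  obtain ⟨G, g1, g2, g3, g4⟩ := gen (E := E) hZ hX hi (ι := Finset ℕ)
    (fun σ B => 1 ≤ σ.card → σ.card ≤ n → Few d (fun τ => f (σ ∪ τ)) (n + 1 - σ.card) B)
    (fun σ U A hU _ hA hi => by
      by_cases hc : 1 ≤ σ.card ∧ σ.card ≤ n
      · obtain ⟨H, a, b, c, e⟩ := h (n + 1 - σ.card) (by omega) (by omega) U A hU hA hi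
          (fun τ => f (σ ∪ τ)) q fun _ => hq _
        exact ⟨H, a, b, c, fun _ _ => e⟩
      · exact ⟨A, Sb.refl _, hi, hU.join hA, fun h1 h2 => absurd ⟨h1, h2⟩ hc⟩)
  refine ⟨G, g1, g2, g3, fun σ => ?_⟩
  obtain ⟨B, b, h1, h2⟩ := g4 σ
  by_cases hc : 1 ≤ σ.card ∧ σ.card ≤ n
  · obtain ⟨S, s1, s2⟩ := h1 hc.1 hc.2
    refine ⟨S ∩ Finset.range q, b, (Finset.card_le_card Finset.inter_subset_left).trans s1,
      Finset.inter_subset_right, fun _ _ τ h3 h4 h5 => Finset.mem_inter.2 ⟨?_,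
        Finset.mem_range.2 (hq _)⟩⟩
    exact s2 τ (by omega) fun y hy => h2 y (h4 y hy) (h3 y hy)
  · exact ⟨∅, 0, by simp, by simp, fun h1 h2 => absurd ⟨h1, h2⟩ hc⟩

/-- the limit colours are collected, size by size -/
theorem step2 (h : ∀ s, 1 ≤ s → s ≤ n → SP E s d) {G : ℕ → Bool} (hG : Hy E (join Z G))
    (hi : Inf G) (I : Finset ℕ → Finset ℕ) (q : ℕ) (h1 : ∀ σ, (I σ).card ≤ d)
    (h2 : ∀ σ, I σ ⊆ Finset.range q) (s : ℕ) (hs : s ≤ n) :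
    ∃ Y, ∃ T : Finset ℕ, Sb Y G ∧ Inf Y ∧ Hy E (join Z Y) ∧ T.card ≤ s * d * d ∧
      ∀ σ : Finset ℕ, Fs σ Y → 1 ≤ σ.card → σ.card ≤ s → I σ ⊆ T := by
  induction s with
  | zero => exact ⟨G, ∅, Sb.refl _, hi, hG, by simp, fun σ _ a b => by omega⟩
  | succ s ih =>
    obtain ⟨Y, T, y1, y2, y3, y4, y5⟩ := ih (by omega)
    obtain ⟨H, a, b, c, S, s1, s2⟩ := h (s + 1) (by omega) hs (join Z Y) Y y3 (red_right _ _) y2
      (fun σ => fc (I σ)) (fc (Finset.range q) + 1) fun σ => Nat.lt_succ_of_le (fc_mono (h2 σ))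
    refine ⟨H, T ∪ (S.filter fun x => (fd x).card ≤ d).biUnion fd, a.trans y1, b,
      c.mono (red_drop _ _ _), ?_, fun σ k1 k2 k3 => ?_⟩
    · have e1 : ((S.filter fun x => (fd x).card ≤ d).biUnion fd).card ≤ d * d :=
        (Finset.card_biUnion_le_card_mul _ _ d fun x hx => (Finset.mem_filter.1 hx).2).trans
          (Nat.mul_le_mul_right _ ((Finset.card_filter_le _ _).trans s1))
      have e2 := Finset.card_union_le T ((S.filter fun x => (fd x).card ≤ d).biUnion fd)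
      have e3 : (s + 1) * d * d = s * d * d + d * d := by ring
      omega
    · rcases Nat.lt_or_ge s σ.card with k4 | k4
      · refine fun x hx => Finset.mem_union_right _ (Finset.mem_biUnion.2 ⟨fc (I σ),
          Finset.mem_filter.2 ⟨s2 σ (by omega) k1, ?_⟩, ?_⟩)
        · rw [fd_fc]; exact h1 σ
        · rwa [fd_fc]
      · exact (y5 σ (k1.mono a) k2 k4).trans Finset.subset_union_left

end Coh

theorem all_coh : S_coh := by
  intro E n d h Z X hZ hX hi f q hq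
  obtain ⟨G, g1, g2, g3, g4⟩ := Coh.step1 h hZ hX hi f q hq
  choose I b h1 h2 h3 using g4
  obtain ⟨Y, T, y1, y2, y3, y4, y5⟩ := Coh.step2 h g3 g2 I q h1 h2 n le_rfl
  refine ⟨Y, T, y1.trans g1, y2, y3, y4, fun σ k1 k2 k3 => ⟨b σ, fun τ k4 k5 k6 => ?_⟩⟩
  have k7 : 1 ≤ σ.card := Finset.card_pos.2 k2
  exact y5 σ k1 k7 k3 (h3 σ k7 k3 τ (k4.mono y1) k5 k6)

end Pool.Agent.P.MP_9014a2_lc.RR
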