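import Pool.Agent.P.MP_9014a2_lc.W.Defs

namespace Pool.Agent.P.MP_9014a2_lc

/-- Ramsey's theorem for exponent `n` and finitely many colours holds in `I`; sets of size `n` are
read as strictly increasing `n`-tuples. -/
def RT (I : Set (ℕ → Bool)) (n : ℕ) : Prop :=
  ∀ F : (Fin n → ℕ) → ℕ, (∃ G ∈ I, IsGraph G F) → (∃ q, ∀ x, F x < q) →
    ∃ A ∈ I, {a | A a = true}.Infinite ∧
      ∃ c, ∀ x : Fin n → ℕ, StrictMono x → (∀ i, A (x i) = true) → F x = c

/-- The three families of principles. -/
inductive Fam
  | free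
  | thin
  | ramsey

/-- The principle of a family, as a property of a class of sets and an exponent. -/
def Fam.holds : Fam → Set (ℕ → Bool) → ℕ → Prop
  | .free => T1
  | .thin => T2
  | .ramsey => RT

end Pool.Agent.P.MP_9014a2_lc
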