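import Pool.Agent.P.MP_9014a2_lc.R.Stm

/-!
Ramsey's theorem for pairs gives free sets for pairs.
-/

namespace Pool.Agent.P.MP_9014a2_lc.RR

open Pool.Agent.Lib.Helper43 Encodable

namespace Fs2

variable {I : Set (ℕ → Bool)} {X : ℕ → Bool}

/-- a bit that flips along every decreasing step -/
theorem bit {α : Type} [Primcodable α] {g : α × ℕ → ℕ} (hg : CI X g) :
    ∃ b : α × ℕ → Bool, CI X b ∧ ∀ a x, g (a, x) < x → b (a, g (a, x)) ≠ b (a, x) := by
  let tb : α → ℕ → List Bool := fun a n =>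
    @Nat.rec (fun _ => List Bool) [] (fun m ih => ih ++ [!(ih.getD (g (a, m)) true)]) n
  have htb : CI X fun p : α × ℕ => tb p.1 p.2 := by
    refine CI.natRec (f := fun p : α × ℕ => p.2) (g := fun _ => [])
      (h := fun p m ih => ih ++ [!(ih.getD (g (p.1, m)) true)]) (by fun_prop) (CI.const _) ?_
    fun_prop
  have h1 : ∀ a n, tb a n =
      (List.range n).map (fun m => !((tb a m).getD (g (a, m)) true)) := by
    intro a n
    induction n with
    | zero => rfl
    | succ n ih =>
      rw [List.range_succ, List.map_append, ← ih]; rfl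
  refine ⟨fun p => !((tb p.1 p.2).getD (g p) true), by fun_prop, fun a x h => ?_⟩
  have h2 : (tb a x).getD (g (a, x)) true =
      !((tb a (g (a, x))).getD (g (a, g (a, x))) true) := by
    conv_lhs => rw [h1]
    simp [List.getD_eq_getElem?_getD, h]
  beta_reduce
  rw [h2]
  simp

/-- homogeneous sets for finitely many bits at once -/
theorem hom (h : LW I 2 1) (hX : X ∈ I) {b : ℕ × ℕ × ℕ → Bool} (hb : CI X b) (k : ℕ) :
    ∃ H ∈ I, Inf H ∧ ∀ i < k, ∀ x z y, x < y → z < y → H x = true → H z = true → H y = true →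
      b (i, x, y) = b (i, z, y) := by
  let c : ℕ × ℕ → ℕ := fun p => fc ((Finset.range k).filter fun i => b (i, p.1, p.2) = true)
  have hc : CI X c := by
    unfold c
    fun_prop
  have hq : ∀ p, c p ≤ fc (Finset.range k) := fun p => fc_mono (Finset.filter_subset _ _)
  let f : Finset ℕ → ℕ := fun s =>
    (∑ x ∈ s, ∑ y ∈ s, if x < y then c (x, y) else 0) % (fc (Finset.range k) + 1)
  have hf : CI X f := by
    unfold f
    fun_prop
  have e : ∀ x y, x < y → f {x, y} = c (x, y) := fun x y hxy => by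
    have := hq (x, y)
    simp only [f, Finset.sum_pair hxy.ne, lt_irrefl, if_false, hxy, if_true, hxy.le.not_gt,
      zero_add, add_zero]
    exact Nat.mod_eq_of_lt (by omega)
  obtain ⟨H, hH, h1, S, h2, h3⟩ := h X hX f hf (fc (Finset.range k) + 1)
    fun s => Nat.mod_lt _ (by omega)
  have h4 : ∀ x y, x < y → H x = true → H y = true → c (x, y) ∈ S := fun x y hxy hx hy => by
    rw [← e x y hxy]
    refine h3 _ (Finset.card_pair hxy.ne) fun u hu => ?_
    rcases Finset.mem_insert.1 hu with rfl | hu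
    · exact hx
    · rw [Finset.mem_singleton.1 hu]; exact hy
  refine ⟨H, hH, h1, fun i hi x z y hx hz h5 h6 h7 => ?_⟩
  have h8 := fc_injective (Finset.card_le_one.1 h2 _ (h4 x y hx h5 h7) _ (h4 z y hz h6 h7))
  have h9 := Finset.ext_iff.1 h8 i
  simp only [Finset.mem_filter, Finset.mem_range, hi, true_and] at h9
  exact Bool.eq_iff_iff.2 h9

/-- no values below the larger argument, except the smaller argument -/
theorem low (h : LW I 2 1) (hX : X ∈ I) {g : ℕ × ℕ × ℕ → ℕ} (hg : CI X g) (k : ℕ) :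
    ∃ H ∈ I, Inf H ∧ ∀ i < k, ∀ x y, x < y → H x = true → H y = true →
      H (g (i, x, y)) = true → g (i, x, y) = x ∨ y ≤ g (i, x, y) := by
  obtain ⟨b, hb, e⟩ := bit (X := X) (g := fun p : (ℕ × ℕ) × ℕ => g (p.1.1, p.2, p.1.2))
    (by fun_prop)
  obtain ⟨b', hb', e'⟩ := bit (X := X)
    (g := fun p : (ℕ × ℕ) × ℕ => p.1.2 - g (p.1.1, p.1.2 - p.2, p.1.2)) (by fun_prop)
  obtain ⟨H, hH, h1, h2⟩ := hom h hX (b := fun p => if p.1 < k then b ((p.1, p.2.2), p.2.1)
    else b' ((p.1 - k, p.2.2), p.2.2 - p.2.1)) (by fun_prop) (k + k)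
  refine ⟨H, hH, h1, fun i hi x y hxy hx hy hz => ?_⟩
  by_contra hc
  rcases lt_or_gt_of_ne (fun h' => hc (Or.inl h')) with h3 | h3
  · have h4 := h2 i (by omega) _ x y (by omega) hxy hz hx hy
    simp only [hi, if_true] at h4
    exact e (i, y) x h3 h4
  · have h5 : g (i, x, y) < y := by omega
    have h4 := h2 (i + k) (by omega) _ x y h5 hxy hz hx hy
    simp only [show ¬ i + k < k by omega, if_false, Nat.add_sub_cancel] at h4
    have h6 := e' (i, y) (y - x)
    simp only [Nat.sub_sub_self hxy.le] at h6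
    exact h6 (by omega) h4

end Fs2

open Fs2 in
theorem all_fs2 : S_fs2 := by
  intro I hI h
  rw [t1_iff hI]
  intro X hX F hF
  obtain ⟨H, hH, h1, h2⟩ := low h hX (g := fun p => if p.1 = 0 then F [p.2.1, p.2.2]
    else if p.1 = 1 then F [p.2.2, p.2.1] else F [p.2.1, p.2.1]) (by fun_prop) 3
  have hF' : CI (join X H) F := hF.mono (red_left X H)
  have hH' : CI (join X H) H := red_right X H
  obtain ⟨A, hA, h3, h4⟩ := greedy (X := join X H)
    (p := fun s y => H y = true ∧ ∀ a ∈ s, ∀ b ∈ s, F [a, b] < y)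
    (Sig.of_di (DI.and (by fun_prop)
      (DI.allF (DI.allF (by fun_prop) (by fun_prop)) (by fun_prop))))
    (fun _ => True) trivial (fun _ _ _ _ => trivial) fun s _ n => by
      obtain ⟨y, h5, h6⟩ := h1.exists_gt (max n (s.sup fun a => s.sup fun b => F [a, b]))
      refine ⟨y, by omega, h5, fun a ha b hb => ?_⟩
      have h7 := Finset.le_sup (f := fun b => F [a, b]) hb
      have h8 := Finset.le_sup (f := fun a => s.sup fun b => F [a, b]) ha
      beta_reduce at h7 h8
      omega
  have hs : ∀ x, A x = true → H x = true := fun x hx => let ⟨_, _, _, h5⟩ := h4 x hx; h5.1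
  refine ⟨A, hI.red (hI.join_mem X hX H hH) hA, h3, fun l hl h5 h6 => ?_⟩
  obtain ⟨a, b, rfl⟩ := List.length_eq_two.1 hl
  have ha := h5 a (by simp)
  have hb := h5 b (by simp)
  have h7 : ¬ (a < F [a, b] ∧ b < F [a, b]) := fun h8 => by
    obtain ⟨s, -, h9, -, h10⟩ := h4 _ h6
    exact lt_irrefl _ (h10 a ((h9 a).2 ⟨h8.1, ha⟩) b ((h9 b).2 ⟨h8.2, hb⟩))
  simp only [List.mem_cons, List.not_mem_nil, or_false]
  rcases lt_trichotomy a b with h8 | rfl | h8
  · have := h2 0 (by omega) a b h8 (hs a ha) (hs b hb) (by simpa using hs _ h6)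
    simp only [if_true] at this
    omega
  · obtain ⟨y, h9, h10⟩ := h1.exists_gt a
    have := h2 2 (by omega) a y h10 (hs a ha) h9 (by simpa using hs _ h6)
    simp only [show ¬ (2 = 0) by omega, show ¬ (2 = 1) by omega, if_false] at this
    omega
  · have := h2 1 (by omega) b a h8 (hs b hb) (hs a ha) (by simpa using hs _ h6)
    simp only [show ¬ (1 = 0) by omega, if_false, if_true] at this
    omega

end Pool.Agent.P.MP_9014a2_lc.RR
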