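import Pool.Agent.P.MP_9014a2_lc.R.Defs
import Pool.Agent.P.MP_9014a2_lc.W.Lists

/-!
Definitions, statements of the pieces and a toolbox for the rows of Ramsey's theorem.
-/

namespace Pool.Agent.P.MP_9014a2_lc.RR

open Pool.Agent.Lib.Helper43 Encodable Filter

/-- infinite sets -/
abbrev Inf (A : ℕ → Bool) : Prop := {n | A n = true}.Infinite

/-- inclusion -/
def Sb (A B : ℕ → Bool) : Prop := ∀ n, A n = true → B n = true

/-- the finite set `s` is a subset of `A` -/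
def Fs (s : Finset ℕ) (A : ℕ → Bool) : Prop := ∀ x ∈ s, A x = true

/-- a finite set as an oracle -/
def ch (s : Finset ℕ) : ℕ → Bool := fun n => decide (n ∈ s)

/-- `G` extends the stem `F` inside the reservoir `X` -/
def Ex (F : Finset ℕ) (X G : ℕ → Bool) : Prop :=
  Fs F G ∧ ∀ x, G x = true → x ∈ F ∨ X x = true

/-- the question `m` about the join of `Z` and `G` has a positive answer -/
def Hl (Z G : ℕ → Bool) (m : ℕ) : Prop := jump (join Z G) m = true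

/-- `f` takes at most `d` values on the subsets of `A` of size `n` -/
def Few (d : ℕ) (f : Finset ℕ → ℕ) (n : ℕ) (A : ℕ → Bool) : Prop :=
  ∃ S : Finset ℕ, S.card ≤ d ∧ ∀ s : Finset ℕ, s.card = n → Fs s A → f s ∈ S

/-- at most `d` colours are left, in the class `I` -/
def LW (I : Set (ℕ → Bool)) (n d : ℕ) : Prop :=
  ∀ X ∈ I, ∀ f : Finset ℕ → ℕ, CI X f → ∀ q, (∀ s, f s < q) → ∃ A ∈ I, Inf A ∧ Few d f n A

/-- no function computable in `Z` escapes one of the two targets -/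
def Hy (E : Bool → ℕ → ℕ → Prop) (Z : ℕ → Bool) : Prop :=
  ∀ j (h : ℕ → ℕ), CI Z h → ∃ n, E j n (h n)

/-- the targets are closed downwards -/
def Dn (E : Bool → ℕ → ℕ → Prop) : Prop := ∀ j n v w, w ≤ v → E j n v → E j n w

/-- the requirement for the target `j` and the program `c` -/
def Req (E : Bool → ℕ → ℕ → Prop) (Z G : ℕ → Bool) (j : Bool) (c : ℕ) : Prop :=
  (∃ n, ∀ v, ¬ Hl Z G (Nat.pair c (Nat.pair n v))) ∨
    ∃ n v, Hl Z G (Nat.pair c (Nat.pair n v)) ∧ E j n v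

/-- strong preservation -/
def SP (E : Bool → ℕ → ℕ → Prop) (n d : ℕ) : Prop :=
  ∀ Z X, Hy E Z → Red X Z → Inf X → ∀ (f : Finset ℕ → ℕ) (q : ℕ), (∀ s, f s < q) →
    ∃ H, Sb H X ∧ Inf H ∧ Hy E (join Z H) ∧ Few d f n H

/-- preservation -/
def WP (E : Bool → ℕ → ℕ → Prop) (n d : ℕ) : Prop :=
  ∀ Z X, Hy E Z → Red X Z → Inf X → ∀ (f : Finset ℕ → ℕ) (q : ℕ), CI Z f → (∀ s, f s < q) →
    ∃ H, Sb H X ∧ Inf H ∧ Hy E (join Z H) ∧ Few d f n H

/-- all split sets of size `n + 1` have a colour in `T` -/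
def Coh (f : Finset ℕ → ℕ) (n : ℕ) (T : Finset ℕ) (Y : ℕ → Bool) : Prop :=
  ∀ σ : Finset ℕ, Fs σ Y → σ.Nonempty → σ.card ≤ n → ∃ b, ∀ τ : Finset ℕ, Fs τ Y →
    (∀ y ∈ τ, b < y) → σ.card + τ.card = n + 1 → f (σ ∪ τ) ∈ T

/-- `H` is homogeneous of colour `c` for the pair colouring `F` -/
def Hom (F : ℕ × ℕ → Bool) (c : Bool) (H : ℕ → Bool) : Prop :=
  ∀ x y, x < y → H x = true → H y = true → F (x, y) = c

/-! ### Toolbox -/

variable {α : Type} [Primcodable α] {E : Bool → ℕ → ℕ → Prop} {X Y Z G : ℕ → Bool}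
  {F : Finset ℕ}

theorem Sb.refl (A : ℕ → Bool) : Sb A A := fun _ h => h

theorem Sb.trans {A B C : ℕ → Bool} (h : Sb A B) (h' : Sb B C) : Sb A C :=
  fun n hn => h' n (h n hn)

theorem Fs.mono {s : Finset ℕ} {A B : ℕ → Bool} (h : Fs s A) (h' : Sb A B) : Fs s B :=
  fun x hx => h' x (h x hx)

theorem Fs.sub {s t : Finset ℕ} {A : ℕ → Bool} (h : Fs s A) (h' : t ⊆ s) : Fs t A :=
  fun x hx => h x (h' hx)

theorem Few.mono {d d' n : ℕ} {f : Finset ℕ → ℕ} {A B : ℕ → Bool} (h : Few d f n A)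
    (hd : d ≤ d') (hB : Sb B A) : Few d' f n B :=
  let ⟨S, h1, h2⟩ := h; ⟨S, h1.trans hd, fun s hs h3 => h2 s hs (h3.mono hB)⟩

theorem SP.mono {n d d' : ℕ} (h : SP E n d) (hd : d ≤ d') : SP E n d' :=
  fun Z X h1 h2 h3 f q h4 =>
    let ⟨H, a, b, c, e⟩ := h Z X h1 h2 h3 f q h4; ⟨H, a, b, c, e.mono hd (Sb.refl _)⟩

theorem Hy.mono (h : Hy E Z) (h' : Red Y Z) : Hy E Y := fun j f hf => h j f (hf.mono h')

theorem Hy.join (h : Hy E Z) (h' : Red Y Z) : Hy E (join Z Y) := h.mono ((Red.refl Z).join h')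

theorem red_ll (A B C : ℕ → Bool) : Red A (join (join A B) C) :=
  (red_left A B).trans (red_left _ _)

theorem red_lr (A B C : ℕ → Bool) : Red B (join (join A B) C) :=
  (red_right A B).trans (red_left _ _)

theorem red_drop (A B C : ℕ → Bool) : Red (join A C) (join (join A B) C) :=
  (red_ll A B C).join (red_right _ _)

theorem red_swap (A B : ℕ → Bool) : Red (join A B) (join B A) :=
  (red_right B A).join (red_left B A)

@[fun_prop] theorem ci_ch {s : α → Finset ℕ} {n : α → ℕ} (hs : CI X s) (hn : CI X n) :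
    CI X fun a => ch (s a) (n a) := by
  unfold ch
  fun_prop

@[simp] theorem ch_iff {s : Finset ℕ} {n : ℕ} : ch s n = true ↔ n ∈ s := by simp [ch]

theorem di_fs {s : α → Finset ℕ} (hs : CI X s) (h : Red Y X) : DI X fun a => Fs (s a) Y := by
  have h1 : CI X Y := h
  exact DI.allF (r := fun _ x => Y x = true) (by fun_prop) hs

/-- the tail of a set -/
def tl (X : ℕ → Bool) (b : ℕ) : ℕ → Bool := fun x => X x && decide (b < x)

@[simp] theorem tl_iff {b x : ℕ} : tl X b x = true ↔ X x = true ∧ b < x := by simp [tl]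

theorem tl_red (h : Red X Z) (b : ℕ) : Red (tl X b) Z := by
  have h1 : CI Z X := h
  unfold tl Red
  fun_prop

theorem tl_sb (X : ℕ → Bool) (b : ℕ) : Sb (tl X b) X := fun _ h => (tl_iff.1 h).1

theorem tl_inf (h : Inf X) (b : ℕ) : Inf (tl X b) :=
  Set.infinite_of_forall_exists_gt fun n => by
    obtain ⟨x, h1, h2⟩ := h.exists_gt (max n b)
    exact ⟨x, tl_iff.2 ⟨h1, by omega⟩, by omega⟩

theorem sig_hl {s : α → Finset ℕ} {m : α → ℕ} (h : Red Z X) (hs : CI X s) (hm : CI X m) :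
    Sig X fun a => Hl Z (ch (s a)) (m a) := by
  have h1 : CI X Z := h
  exact Sig.jump_var (g := fun a => join Z (ch (s a))) (by fun_prop) hm

theorem s1_hl {m : α → ℕ} (hm : CI Z m) : S1 Z fun G a => Hl Z G (m a) := S1.univ.comp hm

/-- finite use -/
theorem Hl.use {m : ℕ} (h : Hl Z G m) : ∃ s, ∀ G', (∀ x < s, G' x = G x) → Hl Z G' m := by
  obtain ⟨q, -, e⟩ := S1.univ (X := Z)
  obtain ⟨s, hs⟩ := (e G m).1 h
  exact ⟨s, fun G' h' => (e G' m).2 ⟨s, by rwa [seg_eq_iff.2 h']⟩⟩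

theorem Hl.force {m : ℕ} (h : Hl Z (ch F) m) :
    ∃ s, ∀ X G, (∀ x, X x = true → s < x) → Ex F X G → Hl Z G m := by
  obtain ⟨s, hs⟩ := h.use
  refine ⟨s, fun X G h1 h2 => hs G fun x hx => ?_⟩
  rw [Bool.eq_iff_iff, ch_iff]
  exact ⟨fun h3 => (h2.2 x h3).resolve_right fun h4 => by have := h1 x h4; omega, h2.1 x⟩

theorem Hl.stem {m : ℕ} (h : Hl Z G m) (hG : Ex F X G) :
    ∃ ρ : Finset ℕ, Fs ρ X ∧ Fs ρ G ∧ Hl Z (ch (F ∪ ρ)) m := by
  obtain ⟨s, hs⟩ := h.use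
  refine ⟨(Finset.range s).filter fun x => G x = true ∧ x ∉ F, fun x hx => ?_, fun x hx => ?_,
    hs _ fun x hx => ?_⟩
  · have := (Finset.mem_filter.1 hx).2
    exact (hG.2 x this.1).resolve_left this.2
  · exact (Finset.mem_filter.1 hx).2.1
  · rw [Bool.eq_iff_iff, ch_iff, Finset.mem_union, Finset.mem_filter, Finset.mem_range]
    refine ⟨fun h1 => h1.elim (hG.1 x) fun h2 => h2.2.1, fun h1 => ?_⟩
    by_cases h2 : x ∈ F
    · exact Or.inl h2
    · exact Or.inr ⟨hx, h1, h2⟩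

theorem hy_of_req (h : ∀ j c, Req E Z G j c) : Hy E (join Z G) := by
  intro j f hf
  obtain ⟨c, hc⟩ := Sig.exists_code (X := join Z G) (p := fun x : ℕ × ℕ => f x.1 = x.2)
    (Sig.of_di (by fun_prop))
  rcases h j c with ⟨n, hn⟩ | ⟨n, v, h1, h2⟩
  · exact absurd ((hc (n, f n)).1 rfl) (hn (f n))
  · exact ⟨n, ((hc (n, v)).2 h1).symm ▸ h2⟩

theorem Hy.sig (hZ : Hy E Z) {R : ℕ → ℕ → Prop} (hR : Sig Z fun x : ℕ × ℕ => R x.1 x.2)
    (h : ∀ n, ∃ v, R n v) (j : Bool) : ∃ n v, R n v ∧ E j n v := by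
  obtain ⟨f, hf, e⟩ := Sig.choose hR h
  obtain ⟨n, hn⟩ := hZ j f hf
  exact ⟨n, _, e n, hn⟩

/-- sequences that meet countably many dense sets -/
theorem exists_generic {P ι : Type} [Countable ι] [Nonempty ι] (r : P → P → Prop)
    (D : ι → P → Prop) (h : ∀ i p, ∃ q, r p q ∧ D i q) (p0 : P) :
    ∃ s : ℕ → P, s 0 = p0 ∧ (∀ n, r (s n) (s (n + 1))) ∧ ∀ i, ∃ n, D i (s n) := by
  obtain ⟨e, he⟩ := exists_surjective_nat ι
  choose nx h1 h2 using h
  refine ⟨fun n => Nat.rec p0 (fun n p => nx (e n) p) n, rfl, fun n => h1 _ _, fun i => ?_⟩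
  obtain ⟨n, rfl⟩ := he i
  exact ⟨n + 1, h2 _ _⟩

/-- the limit of a chain of stems -/
theorem exists_limit (F : ℕ → Finset ℕ) (X : ℕ → ℕ → Bool) (h1 : ∀ n, F n ⊆ F (n + 1))
    (h2 : ∀ n, ∀ x ∈ F (n + 1), x ∈ F n ∨ X n x = true) (h3 : ∀ n, Sb (X (n + 1)) (X n)) :
    ∃ G, (∀ x, G x = true ↔ ∃ n, x ∈ F n) ∧ (∀ n, Ex (F n) (X n) G) ∧
      ∀ s : Finset ℕ, Fs s G → ∃ n, s ⊆ F n := by
  classical
  have m1 : Monotone F := monotone_nat_of_le_succ h1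
  have m3 : ∀ n m, n ≤ m → Sb (X m) (X n) := fun n m h => by
    induction h with
    | refl => exact Sb.refl _
    | step _ ih => exact (h3 _).trans ih
  have m2 : ∀ n m, n ≤ m → ∀ x ∈ F m, x ∈ F n ∨ X n x = true := fun n m h => by
    induction h with
    | refl => exact fun _ hx => Or.inl hx
    | step hm ih => exact fun x hx => (h2 _ x hx).elim (ih x) fun h => Or.inr (m3 _ _ hm x h)
  have e : ∀ x, decide (∃ n, x ∈ F n) = true ↔ ∃ n, x ∈ F n := fun x => decide_eq_true_iff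
  refine ⟨fun x => decide (∃ n, x ∈ F n), e, fun n => ⟨fun x hx => (e x).2 ⟨n, hx⟩,
    fun x hx => ?_⟩, fun s hs => ?_⟩
  · obtain ⟨m, hm⟩ := (e x).1 hx
    exact m2 n (max n m) (le_max_left _ _) x (m1 (le_max_right _ _) hm)
  · choose g hg using fun x : s => (e x).1 (hs x x.2)
    exact ⟨Finset.univ.sup g, fun x hx =>
      m1 (Finset.le_sup (f := g) (Finset.mem_univ ⟨x, hx⟩)) (hg ⟨x, hx⟩)⟩

/-- greedy construction of an infinite set -/
theorem greedy {p : Finset ℕ → ℕ → Prop} (hp : Sig X fun x : Finset ℕ × ℕ => p x.1 x.2)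
    (I : Finset ℕ → Prop) (h0 : I ∅) (hI : ∀ A y, I A → p A y → I (insert y A))
    (hex : ∀ A, I A → ∀ b, ∃ y, b < y ∧ p A y) :
    ∃ H, Red H X ∧ Inf H ∧ ∀ y, H y = true →
      ∃ A, I A ∧ (∀ x, x ∈ A ↔ x < y ∧ H x = true) ∧ p A y := by
  obtain ⟨R, hR, r0, r1⟩ := exists_path (X := X) (σ := Finset ℕ × ℕ)
    (r := fun s s' => (s.2 < s'.2 ∧ s'.1 = insert s'.2 s.1) ∧ p s.1 s'.2) (I := fun s => I s.1)
    (Sig.and (Sig.of_di (by fun_prop)) (hp.comp (g := fun x : (Finset ℕ × ℕ) × Finset ℕ × ℕ =>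
      (x.1.1, x.2.2)) (by fun_prop))) (s0 := (∅, 0)) h0
    (fun s s' hs h => by rw [h.1.2]; exact hI _ _ hs h.2)
    fun s hs => by
      obtain ⟨y, h1, h2⟩ := hex s.1 hs s.2
      exact ⟨(insert y s.1, y), ⟨h1, rfl⟩, h2⟩
  have sm : StrictMono fun t => (R (t + 1)).2 := strictMono_nat_of_lt_succ fun t => (r1 (t + 1)).1.1
  have hA : ∀ t x, x ∈ (R t).1 ↔ ∃ u < t, (R (u + 1)).2 = x := fun t x => by
    induction t with
    | zero => simp [r0]
    | succ t ih =>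
      rw [(r1 t).1.2, Finset.mem_insert, ih, Nat.exists_lt_succ_right, or_comm, eq_comm]
  have hi : ∀ t, I (R t).1 := fun t => by
    induction t with
    | zero => rwa [r0]
    | succ t ih => rw [(r1 t).1.2]; exact hI _ _ ih (r1 t).2
  have e : ∀ x, ch (R (x + 1)).1 x = true ↔ ∃ u, (R (u + 1)).2 = x := fun x => by
    rw [ch_iff, hA]
    exact ⟨fun ⟨u, _, h⟩ => ⟨u, h⟩, fun ⟨u, h⟩ =>
      ⟨u, Nat.lt_succ_of_le (h ▸ sm.id_le u), h⟩⟩
  refine ⟨fun x => ch (R (x + 1)).1 x, by unfold Red; fun_prop,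
    Set.infinite_of_injective_forall_mem sm.injective fun u => (e _).2 ⟨u, rfl⟩, fun y hy => ?_⟩
  obtain ⟨t, rfl⟩ := (e y).1 hy
  refine ⟨(R t).1, hi t, fun x => ?_, (r1 t).2⟩
  rw [hA, e]
  exact ⟨fun ⟨u, h1, h2⟩ => ⟨h2 ▸ sm h1, u, h2⟩, fun ⟨h1, u, h2⟩ =>
    ⟨u, sm.lt_iff_lt.1 (h2 ▸ h1), h2⟩⟩

end Pool.Agent.P.MP_9014a2_lc.RR
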