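import Pool.Agent.P.MP_9014a2_lc.R.Stm

/-!
The two inductions on the number of colours.
-/

namespace Pool.Agent.P.MP_9014a2_lc.RR

open Pool.Agent.Lib.Helper43 Encodable Filter

namespace Ind

theorem shrink (hc : S_coh) (ha : S_avoid) {E : Bool → ℕ → ℕ → Prop} {n d : ℕ} (hE : Dn E)
    (h1 : ∀ s, 1 ≤ s → s ≤ n → SP E s d) (h2 : WP E (n + 1) d) (f : Finset ℕ → ℕ) (q : ℕ)
    (hq : ∀ s, f s < q) (k : ℕ) : ∀ (K : Finset ℕ) (Z X : ℕ → Bool), K.card ≤ k → Hy E Z →
      Red X Z → Inf X → (∀ s : Finset ℕ, s.card = n + 1 → Fs s X → f s ∈ K) →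
      ∃ H, Sb H X ∧ Inf H ∧ Hy E (join Z H) ∧ Few (n * d * d + 2 * d + 1) f (n + 1) H := by
  induction k with
  | zero =>
    intro K Z X hK hZ hX hI hf
    exact ⟨X, Sb.refl _, hI, hZ.join hX, K, by omega, hf⟩
  | succ k ih =>
    intro K Z X hK hZ hX hI hf
    by_cases hD : K.card ≤ n * d * d + 2 * d + 1
    · exact ⟨X, Sb.refl _, hI, hZ.join hX, K, hD, hf⟩
    obtain ⟨Y, T, y1, y2, y3, y4, y5⟩ := hc E n d h1 Z X hZ hX hI f q hq
    have hS : 2 * d + 2 ≤ (K \ T).card := by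
      have := Finset.le_card_sdiff T K
      omega
    obtain ⟨c, c1, H, a1, a2, a3, a4⟩ := ha E n d hE h2 (join Z Y) Y y3 (red_right _ _) y2 f T
      (K \ T) Finset.disjoint_sdiff hS y5
    have cK : c ∈ K := (Finset.mem_sdiff.1 c1).1
    obtain ⟨G, g1, g2, g3, g4⟩ := ih (K.erase c) (join Z H) H
      (by rw [Finset.card_erase_of_mem cK]; omega) (a3.mono (red_drop _ _ _)) (red_right _ _) a2
      fun s hs h => Finset.mem_erase.2 ⟨a4 s hs h, hf s hs ((h.mono a1).mono y1)⟩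
    exact ⟨G, (g1.trans a1).trans y1, g2, g3.mono (red_drop _ _ _), g4⟩

theorem pair {A : ℕ → Bool} (h : Inf A) : ∃ s : Finset ℕ, s.card = 2 ∧ Fs s A := by
  obtain ⟨s, h1, h2⟩ := h.exists_subset_card_eq 2
  exact ⟨s, h2, fun x hx => h1 hx⟩

theorem two {s : Finset ℕ} (h : s.card = 2) : ∃ x y, x < y ∧ s = {x, y} := by
  obtain ⟨x, y, h1, rfl⟩ := Finset.card_eq_two.1 h
  rcases lt_or_gt_of_ne h1 with h2 | h2
  · exact ⟨x, y, h2, rfl⟩
  · exact ⟨y, x, h2, Finset.pair_comm _ _⟩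

theorem low (hl : S_low2) (f : Finset ℕ → ℕ) (q : ℕ) : ∀ X A : ℕ → Bool, Red A X → Inf A →
    CI X f → (∀ s : Finset ℕ, s.card = 2 → Fs s A → f s < q) →
    ∃ H, Inf H ∧ Few 1 f 2 H ∧ Red (jump (jump (join X H))) (jump (jump X)) := by
  induction q with
  | zero =>
    intro X A _ hI _ hf
    obtain ⟨s, h1, h2⟩ := pair hI
    exact absurd (hf s h1 h2) (Nat.not_lt_zero _)
  | succ q ih =>
    intro X A hA hI hc hf
    obtain ⟨H, c, h1, h2, h3, h4⟩ := hl X A (fun p => decide (f (insert p.1 {p.2}) = q)) hA hI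
      (by fun_prop)
    have key : ∀ s : Finset ℕ, s.card = 2 → Fs s H → decide (f s = q) = c := fun s hs h => by
      obtain ⟨x, y, h5, rfl⟩ := two hs
      exact h3 x y h5 (h x (by simp)) (h y (by simp))
    cases c with
    | true =>
      exact ⟨H, h2, ⟨{q}, by simp, fun s hs h => by simpa using key s hs h⟩, h4⟩
    | false =>
      obtain ⟨G, g1, g2, g3⟩ := ih (join X H) H (red_right _ _) h2 (hc.mono (red_left _ _))
        fun s hs h => by
          have h5 := hf s hs (h.mono h1)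
          have h6 : f s ≠ q := by simpa using key s hs h
          omega
      exact ⟨G, g1, g2, ((red_drop X H G).jump.jump.trans g3).trans h4⟩

end Ind

theorem all_sp (hw : S_wp) (hc : S_coh) (ha : S_avoid) : S_sp := by
  intro E n hE
  have key : ∀ n, ∃ d, ∀ s, s ≤ n → SP E s d := fun n => by
    induction n with
    | zero =>
      refine ⟨1, fun s hs Z X hZ hX hI f q _ => ⟨X, Sb.refl _, hI, hZ.join hX, {f ∅}, by simp,
        fun t ht _ => ?_⟩⟩
      obtain rfl : t = ∅ := Finset.card_eq_zero.1 (by omega)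
      simp
    | succ n ih =>
      obtain ⟨d, hd⟩ := ih
      refine ⟨n * d * d + 2 * d + 1, fun s hs => ?_⟩
      rcases Nat.lt_or_ge s (n + 1) with h | h
      · exact (hd s (by omega)).mono (by omega)
      · obtain rfl : s = n + 1 := by omega
        intro Z X hZ hX hI f q hq
        exact Ind.shrink hc ha hE (fun s _ h => hd s h) (hw E n d (hd n le_rfl)) f q hq q
          (Finset.range q) Z X (by simp) hZ hX hI fun s _ _ => Finset.mem_range.2 (hq s)
  obtain ⟨d, hd⟩ := key n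
  exact ⟨d, hd n le_rfl⟩

theorem all_low2q (hl : S_low2) : S_low2q := fun X f q hf hq =>
  Ind.low hl f q X (fun _ => true) (CI.const _) (by simpa [Inf] using Set.infinite_univ) hf
    fun s _ _ => hq s

end Pool.Agent.P.MP_9014a2_lc.RR
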