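import Pool.Agent.P.MP_9014a2_lc.R.Stm
import Pool.Agent.P.MP_9014a2_lc.Limit
import Pool.Agent.P.MP_9014a2_lc.Approx

/-!
A computable colouring of pairs whose homogeneous sets destroy a target.
-/

namespace Pool.Agent.P.MP_9014a2_lc.RR

open Encodable Filter

namespace Inst

/-- a strictly increasing sequence below the jump that waits for all programs -/
theorem exists_b (Z : ℕ → Bool) : ∃ b : ℕ → ℕ, CI (jump Z) b ∧ StrictMono b ∧
    ∀ t v, jump Z (Nat.pair (t / 2) (Nat.pair (b t) v)) = true →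
      ∃ w < b (t + 1), jump Z (Nat.pair (t / 2) (Nat.pair (b t) w)) = true := by
  have h0 : DI (jump Z) fun n : ℕ => jump Z n = true := (Red.refl _).di
  have h1 : DI (jump Z) fun s : ℕ × ℕ =>
      ∃ v, jump Z (Nat.pair (s.1 / 2) (Nat.pair s.2 v)) = true :=
    Sig.di_jump (Sig.ex (r := fun (s : ℕ × ℕ) (v : ℕ) =>
      jump Z (Nat.pair (s.1 / 2) (Nat.pair s.2 v)) = true)
      (sig_jump.comp (g := fun x : (ℕ × ℕ) × ℕ => Nat.pair (x.1.1 / 2) (Nat.pair x.1.2 x.2))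
        (by fun_prop)))
  have h2 : DI (jump Z) fun x : (ℕ × ℕ) × ℕ × ℕ =>
      ∃ v < x.2.2, jump Z (Nat.pair (x.1.1 / 2) (Nat.pair x.1.2 v)) = true :=
    DI.exLt (h0.comp (g := fun y : ((ℕ × ℕ) × ℕ × ℕ) × ℕ =>
      Nat.pair (y.1.1.1 / 2) (Nat.pair y.1.1.2 y.2)) (by fun_prop)) (by fun_prop)
  have h3 : DI (jump Z) fun x : (ℕ × ℕ) × ℕ × ℕ => x.2.1 = x.1.1 + 1 ∧ x.1.2 < x.2.2 :=
    by fun_prop
  obtain ⟨R, hR, e0, e⟩ := exists_path (X := jump Z) (I := fun _ : ℕ × ℕ => True)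
    (r := fun s s' : ℕ × ℕ => (s'.1 = s.1 + 1 ∧ s.2 < s'.2) ∧
      ((¬ ∃ v, jump Z (Nat.pair (s.1 / 2) (Nat.pair s.2 v)) = true) ∨
        ∃ v < s'.2, jump Z (Nat.pair (s.1 / 2) (Nat.pair s.2 v)) = true))
    (Sig.of_di (h3.and ((h1.comp (g := fun x : (ℕ × ℕ) × ℕ × ℕ => x.1) (by fun_prop)).not.or h2)))
    (s0 := (0, 0)) trivial (fun _ _ _ _ => trivial) fun s _ => by
      by_cases h : ∃ v, jump Z (Nat.pair (s.1 / 2) (Nat.pair s.2 v)) = true
      · obtain ⟨v, hv⟩ := h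
        exact ⟨(s.1 + 1, s.2 + v + 1), ⟨rfl, by simp only; omega⟩,
          Or.inr ⟨v, by simp only; omega, hv⟩⟩
      · exact ⟨(s.1 + 1, s.2 + 1), ⟨rfl, by simp⟩, Or.inl h⟩
  have ht : ∀ t, (R t).1 = t := fun t => by
    induction t with
    | zero => rw [e0]
    | succ t ih => rw [(e t).1.1, ih]
  refine ⟨fun t => (R t).2, hR.snd, strictMono_nat_of_lt_succ fun t => (e t).1.2, fun t v hv => ?_⟩
  have h := (e t).2
  rw [ht] at h
  exact h.resolve_left fun h' => h' ⟨v, hv⟩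

/-- a set below the jump such that it and its complement are hyperimmune -/
theorem exists_set (Z : ℕ → Bool) : ∃ A : ℕ → Bool, CI (jump Z) A ∧
    Hy (fun j n v => ∀ x, n ≤ x → x ≤ v → A x ≠ j) Z := by
  obtain ⟨b, hb, hm, h⟩ := exists_b Z
  have hex : ∀ x, ∃ t, x < b (t + 1) := fun x => ⟨x, Nat.lt_of_succ_le (hm.le_apply)⟩
  have htm : CI (jump Z) fun x => Nat.find (hex x) :=
    CI.find (p := fun x t => x < b (t + 1)) (by fun_prop) hex
  have key : ∀ t x, b t ≤ x → x < b (t + 1) → Nat.find (hex x) = t := fun t x h1 h2 =>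
    (Nat.find_eq_iff _).2 ⟨h2, fun m hm' => not_lt.2 ((hm.monotone hm').trans h1)⟩
  refine ⟨fun x => !(Nat.find (hex x)).bodd,
    (CI.of_comp (f := fun n : ℕ => !n.bodd)
      (Primrec.not.comp Primrec.nat_bodd).to_comp).comp htm, fun j f hf => ?_⟩
  have hs : Sig Z fun x : ℕ × ℕ => f x.1 = x.2 := Sig.of_di (by fun_prop)
  obtain ⟨c, hc⟩ := hs.exists_code
  have e1 : (2 * c + j.toNat) / 2 = c := by have := Bool.toNat_le j; omega
  have e2 : (2 * c + j.toNat).bodd = j := by cases j <;> simp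
  have h1 := h (2 * c + j.toNat) (f (b (2 * c + j.toNat)))
  rw [e1] at h1
  obtain ⟨w, hw, h2⟩ := h1 ((hc (_, _)).1 rfl)
  have h3 : f (b (2 * c + j.toNat)) = w := (hc (_, w)).2 h2
  refine ⟨b (2 * c + j.toNat), fun x hx hx' => ?_⟩
  show (!(Nat.find (hex x)).bodd) ≠ j
  rw [key _ x hx (by omega), e2]
  cases j <;> simp

end Inst

theorem all_inst : S_inst := by
  classical
  obtain ⟨A, hA, hy⟩ := Inst.exists_set fun _ => false
  obtain ⟨F, hF, hl⟩ := Limit.limit all_approx (fun _ => false) (fun x => (A x).toNat)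
    ((CI.of_comp (f := Bool.toNat) (Primrec.dom_bool Bool.toNat).to_comp).comp hA)
  have hd : DI (fun _ => false) fun s : Finset ℕ => ∃ x ∈ s, ∃ y ∈ s, x < y ∧ F (x, y) = 1 :=
    DI.exF (r := fun (s : Finset ℕ) (x : ℕ) => ∃ y ∈ s, x < y ∧ F (x, y) = 1)
      (DI.exF (r := fun (p : Finset ℕ × ℕ) (y : ℕ) => p.2 < y ∧ F (p.2, y) = 1) (by fun_prop)
        (by fun_prop)) CI.id
  refine ⟨fun j n v => ∀ x, n ≤ x → x ≤ v → A x ≠ j,
    fun s => if ∃ x ∈ s, ∃ y ∈ s, x < y ∧ F (x, y) = 1 then 1 else 0,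
    fun j n v w hw h x h1 h2 => h x h1 (h2.trans hw), hy,
    CI.ite hd (CI.const _) (CI.const _), fun s => by beta_reduce; split_ifs <;> omega, ?_⟩
  rintro H hH ⟨S, hS, h⟩ hy'
  have h1 : ∀ x, H x = true → (A x).toNat ∈ S := fun x hx => by
    obtain ⟨N, hN⟩ := eventually_atTop.1 (hl x)
    obtain ⟨y, hy, hxy⟩ := hH.exists_gt (max N x)
    have h2 : x < y := (le_max_right _ _).trans_lt hxy
    have h3 : F (x, y) = (A x).toNat := hN y ((le_max_left _ _).trans hxy.le)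
    have h4 := h {x, y} (Finset.card_pair h2.ne) fun z hz => by
      rcases Finset.mem_insert.1 hz with rfl | hz
      · exact hx
      · rw [Finset.mem_singleton.1 hz]
        exact hy
    have h5 : (∃ a ∈ ({x, y} : Finset ℕ), ∃ b ∈ ({x, y} : Finset ℕ), a < b ∧ F (a, b) = 1) ↔
        A x = true := by
      constructor
      · rintro ⟨a, ha, b, hb, h6, h7⟩
        simp only [Finset.mem_insert, Finset.mem_singleton] at ha hb
        have ea : a = x := by omega
        have eb : b = y := by omega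
        rw [ea, eb, h3] at h7
        revert h7
        cases A x <;> simp
      · intro h6
        exact ⟨x, by simp, y, by simp, h2, by rw [h3, h6]; rfl⟩
    simp only [h5] at h4
    revert h4
    cases A x <;> simp
  have hex : ∀ n, ∃ m, n ≤ m ∧ H m = true := fun n =>
    let ⟨m, h2, h3⟩ := hH.exists_gt n; ⟨m, h3.le, h2⟩
  have h0 : DI H fun n : ℕ => H n = true := (Red.refl _).di
  obtain ⟨x0, -, hx0⟩ := hex 0
  obtain ⟨n, hn⟩ := hy' (A x0) (fun n => Nat.find (hex n))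
    (CI.find (p := fun n m => n ≤ m ∧ H m = true)
      (DI.and (by fun_prop) (h0.comp (g := fun q : ℕ × ℕ => q.2) (by fun_prop))) hex)
  have h2 := Nat.find_spec (hex n)
  have h3 := Finset.card_le_one.1 hS _ (h1 _ h2.2) _ (h1 _ hx0)
  refine hn _ h2.1 le_rfl ?_
  revert h3
  cases A x0 <;> cases A (Nat.find (hex n)) <;> simp

end Pool.Agent.P.MP_9014a2_lc.RR
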