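import Pool.Agent.P.MP_9014a2_lc.R.Stm
import Pool.Agent.P.MP_9014a2_lc.Approx
import Pool.Agent.P.MP_9014a2_lc.W.Wit
import Pool.Agent.P.MP_9014a2_lc.W.Thin

/-! Closure under the jump, and free sets for exponent one. -/

namespace Pool.Agent.P.MP_9014a2_lc.RR

open Pool.Agent.Lib.Helper43 Encodable Filter

namespace Jmp

/-- the approximations at the two larger stages agree up to the least element -/
def Ag (X : ℕ → Bool) (s : Finset ℕ) : Prop :=
  ∀ x ∈ s, ∀ y ∈ s, ∀ z ∈ s, x < y → y < z → ∀ e < x + 1, Approx.ap X y e = Approx.ap X z e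

theorem ci_ap (X : ℕ → Bool) : CI X fun p : ℕ × ℕ => Approx.ap X p.1 p.2 := by
  have h0 := CI.oracle (X := X)
  unfold Approx.ap
  fun_prop

theorem di_ag (X : ℕ → Bool) : DI X (Ag X) := by
  have h1 := ci_ap X
  refine DI.allF (DI.allF (DI.allF (DI.imp (by fun_prop) (DI.imp (by fun_prop)
    (DI.allLt (DI.eq ?_ ?_) (by fun_prop)))) (by fun_prop)) (by fun_prop)) (by fun_prop)
  · exact h1.comp (g := fun p : (((Finset ℕ × ℕ) × ℕ) × ℕ) × ℕ => (p.1.1.2, p.2)) (by fun_prop)
  · exact h1.comp (g := fun p : (((Finset ℕ × ℕ) × ℕ) × ℕ) × ℕ => (p.1.2, p.2)) (by fun_prop)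

theorem ag_iff {X : ℕ → Bool} {x y z : ℕ} (h1 : x < y) (h2 : y < z) :
    Ag X {x, y, z} ↔ ∀ e < x + 1, Approx.ap X y e = Approx.ap X z e := by
  refine ⟨fun h => h x (by simp) y (by simp) z (by simp) h1 h2, fun h a ha b hb c hc h3 h4 => ?_⟩
  simp only [Finset.mem_insert, Finset.mem_singleton] at ha hb hc
  obtain rfl : a = x := by omega
  obtain rfl : b = y := by omega
  obtain rfl : c = z := by omega
  exact h

end Jmp

theorem all_jump : S_jump := by
  classical
  intro I hI hL X hX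
  have hd := Jmp.di_ag X
  obtain ⟨A, hA, hinf, S, hS, hf⟩ := hL X hX (fun s => if Jmp.Ag X s then 1 else 0) (by fun_prop) 2
    fun s => by split_ifs <;> omega
  obtain ⟨lam, sm, hl, hm⟩ := TF.Thin.exists_enum hinf
  have mem : ∀ i j k, i < j → j < k →
      (if Jmp.Ag X {lam i, lam j, lam k} then 1 else 0) ∈ S := fun i j k h1 h2 => by
    have a1 := sm h1
    have a2 := sm h2
    refine hf _ (Finset.card_eq_three.2 ⟨_, _, _, a1.ne, (a1.trans a2).ne, a2.ne, rfl⟩) fun x hx => ?_
    simp only [Finset.mem_insert, Finset.mem_singleton] at hx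
    rcases hx with rfl | rfl | rfl <;> exact hm _
  obtain ⟨N, hN⟩ := eventually_atTop.1
    ((Finset.range (lam 0 + 1)).eventually_all.2 fun n _ => Approx.ev X n)
  have one : 1 ∈ S := by
    have := mem 0 (N + 1) (N + 2) (by omega) (by omega)
    rwa [if_pos] at this
    refine (Jmp.ag_iff (sm (by omega)) (sm (by omega))).2 fun e he => ?_
    have a1 := sm.id_le (N + 1)
    have a2 := sm.id_le (N + 2)
    simp only [id] at a1 a2
    rw [hN _ (by omega) e (Finset.mem_range.2 he), hN _ (by omega) e (Finset.mem_range.2 he)]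
  have key : ∀ e, Approx.ap X (lam (e + 1)) e = jump X e := fun e => by
    obtain ⟨M, hM⟩ := eventually_atTop.1 (Approx.ev X e)
    have h1 := Finset.card_le_one.1 hS _ (mem e (e + 1) (e + 2 + M) (by omega) (by omega)) _ one
    have h2 : Jmp.Ag X {lam e, lam (e + 1), lam (e + 2 + M)} := by
      by_contra h
      simp [h] at h1
    have a1 := sm.id_le e
    have a2 := sm.id_le (e + 2 + M)
    simp only [id] at a1 a2
    rw [(Jmp.ag_iff (sm (by omega)) (sm (by omega))).1 h2 e (by omega), hM _ (by omega)]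
  refine hI.red (hI.join_mem X hX A hA) (CI.of_eq ?_ key)
  have h1 := (Jmp.ci_ap X).mono (red_left X A)
  have h2 := hl.mono (red_right X A)
  exact h1.comp (g := fun e : ℕ => (lam (e + 1), e)) (by fun_prop)

theorem all_jsc : S_jsc := by
  intro I hI hj
  refine ⟨hI, fun T hT h1 h2 => ?_⟩
  obtain ⟨Z, hZ, hp⟩ := Wit.low_path (Red.refl T)
  exact ⟨Z, hI.red (hj T hT) (((red_right T Z).trans (red_jump _)).trans hZ), hp h1 h2⟩

theorem all_fs1 : S_fs1 := by
  classical
  intro I hI
  rw [t1_iff hI]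
  intro X hX F hF
  have hg : CI X fun x : ℕ => F [x] := hF.comp (by fun_prop)
  by_cases h : ∃ v, {x | F [x] = v}.Infinite
  · obtain ⟨v, hv⟩ := h
    refine ⟨fun x => decide (F [x] = v ∧ x ≠ v), hI.red hX (by unfold Red; fun_prop),
      (hv.sdiff (Set.finite_singleton v)).mono fun x hx => by simpa using hx, fun l hl h1 h2 => ?_⟩
    obtain ⟨x, rfl⟩ := List.length_eq_one_iff.1 hl
    have a1 := of_decide_eq_true (h1 x (by simp))
    exact absurd a1.1 (of_decide_eq_true h2).2
  · push Not at h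
    obtain ⟨H, hH, hinf, hp⟩ := greedy (X := X)
      (p := fun A y => (∀ x ∈ A, F [x] < y) ∧ ¬ F [y] ∈ A)
      (Sig.of_di (DI.and (DI.allF (DI.lt (hg.comp (by fun_prop)) (by fun_prop)) (by fun_prop))
        (DI.not (DI.memF (hg.comp (by fun_prop)) (by fun_prop)))))
      (fun _ => True) trivial (fun _ _ _ _ => trivial) fun A _ b => by
        have fin : (⋃ v ∈ A, {x | F [x] = v}).Finite := A.finite_toSet.biUnion fun v _ => h v
        obtain ⟨y, h1, h2⟩ := fin.infinite_compl.exists_gt (max b (A.sup fun x => F [x]))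
        refine ⟨y, by omega, fun x hx => ?_, fun hy => h1 (Set.mem_biUnion hy rfl)⟩
        have := Finset.le_sup (f := fun x => F [x]) hx
        omega
    refine ⟨H, hI.red hX hH, hinf, fun l hl h1 h2 => ?_⟩
    obtain ⟨x, rfl⟩ := List.length_eq_one_iff.1 hl
    have hx := h1 x (by simp)
    rcases lt_trichotomy (F [x]) x with h3 | h3 | h3
    · obtain ⟨A, -, e, h4⟩ := hp x hx
      exact absurd ((e _).2 ⟨h3, h2⟩) h4.2
    · simp [h3]
    · obtain ⟨A, -, e, h4⟩ := hp _ h2
      exact absurd (h4.1 x ((e _).2 ⟨h3, hx⟩)) (lt_irrefl _)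

end Pool.Agent.P.MP_9014a2_lc.RR
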