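import Pool.Agent.P.MP_9014a2_lc.R.Stm
import Pool.Agent.P.MP_9014a2_lc.Glue
import Pool.Agent.P.MP_9014a2_lc.Low
import Pool.Agent.P.MP_9014a2_lc.ScottC
import Pool.Agent.P.MP_9014a2_lc.Ult

/-!
Homogeneous sets for two colours whose double jump is small.
-/

namespace Pool.Agent.P.MP_9014a2_lc.RR

open Pool.Agent.Lib.Helper43 Encodable Filter

namespace Low2

variable {α : Type} [Primcodable α]

/-- a filter that is an ultrafilter on the class coded by `C` and has the large columns as a base -/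
structure Flt (C U : ℕ → Bool) (l : Filter ℕ) : Prop where
  ne : l.NeBot
  iff : ∀ p : ℕ → Prop, (∀ᶠ x in l, p x) ↔ ∃ e, U e = true ∧ ∀ x, col C e x = true → p x
  tail : ∀ n, ∀ᶠ x in l, n < x
  em : ∀ Y ∈ M C, ∃ b, ∀ᶠ x in l, Y x = b

theorem ci_col {C : ℕ → Bool} {e x : α → ℕ} (he : CI C e) (hx : CI C x) :
    CI C fun a => col C (e a) (x a) :=
  CI.comp (g := fun a => Nat.pair (e a) (x a)) CI.oracle (by fun_prop)

theorem exists_flt {C : ℕ → ℕ → Bool} (hC : Tower C) {A : ℕ → Bool} (hA : A ∈ M (C 0))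
    (hI : Inf A) : ∃ U l, CI (C 1) U ∧ Flt (C 0) U l ∧ ∀ᶠ x in l, A x = true := by
  have hS := hC.scott 0
  have hA0 : CI (C 0) A := red_of_mem hA
  obtain ⟨U, h1, h2⟩ := all_ult C hC ℕ 1 (fun _ => 0)
    (fun L => ∀ n, ∃ x, (n < x ∧ A x = true) ∧ ∀ y ∈ L, col (C 0) y.1 x = y.2) (by fun_prop)
    (fun n => by
      obtain ⟨x, a, b⟩ := hI.exists_gt n
      exact ⟨x, ⟨b, a⟩, by simp⟩)
    (fun L L' h h' n => (h' n).imp fun x hx => ⟨hx.1, fun y hy => hx.2 y (h hy)⟩)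
    (fun L E h => by
      by_contra h0
      simp only [not_or, not_forall, not_exists, not_and, List.forall_mem_cons] at h0
      obtain ⟨⟨n, a⟩, m, b⟩ := h0
      obtain ⟨x, hx, h3⟩ := h (max n m)
      cases h4 : col (C 0) E x
      · obtain ⟨y, hy, h5⟩ := b x ⟨by omega, hx.2⟩ h4
        exact h5 (h3 y hy)
      · obtain ⟨y, hy, h5⟩ := a x ⟨by omega, hx.2⟩ h4
        exact h5 (h3 y hy))
    (fun q => ⟨_, hC.jump_mem_of_lt (l := 0) (by omega), by
      have h1 : DI (C 0) fun p : (List (ℕ × Bool) × ℕ) × ℕ => (p.1.2 < p.2 ∧ A p.2 = true) ∧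
          ∀ y ∈ p.1.1, col (C 0) y.1 p.2 = y.2 :=
        DI.and (by fun_prop) (DI.allL (DI.eq (ci_col (by fun_prop) (by fun_prop)) (by fun_prop))
          (by fun_prop))
      have h2 := Sig.ex (r := fun (L : List (ℕ × Bool)) (n : ℕ) => ¬ ∃ x, (n < x ∧ A x = true) ∧
          ∀ y ∈ L, col (C 0) y.1 x = y.2)
        (Sig.of_di (Sig.ex (r := fun (p : List (ℕ × Bool) × ℕ) (x : ℕ) =>
          (p.2 < x ∧ A x = true) ∧ ∀ y ∈ p.1, col (C 0) y.1 x = y.2) (Sig.of_di h1)).di_jump.not)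
      exact h2.of_iff fun L => by simp only [not_forall, Nat.zero_le, implies_true, true_and]⟩)
  have key : ∀ {p : ℕ → Prop}, DM (C 0) p → ∀ (L : List ℕ) (n : ℕ), (∀ e ∈ L, U e = true) →
      (∀ x, n < x → A x = true → (∀ e ∈ L, col (C 0) e x = true) → p x) →
      ∃ e, U e = true ∧ ∀ x, col (C 0) e x = true → p x := by
    intro p hp L n hL h
    obtain ⟨e, he⟩ := hS.exists_col hp
    refine ⟨e, ?_, fun x => (he x).1⟩
    cases hu : U e
    · obtain ⟨x, a, b⟩ := h1 ((e, false) :: L.map fun e => (e, true))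
        (List.forall_mem_cons.2 ⟨hu, List.forall_mem_map.2 hL⟩) n
      rw [List.forall_mem_cons, List.forall_mem_map] at b
      have := (he x).2 (h x a.1 a.2 b.2)
      rw [b.1] at this
      exact this
    · rfl
  have dc : ∀ e, DM (C 0) fun x => col (C 0) e x = true := fun e =>
    ⟨_, col_mem _ e, (Red.refl _).di⟩
  let l : Filter ℕ :=
    { sets := {S | ∃ e, U e = true ∧ ∀ x, col (C 0) e x = true → x ∈ S}
      univ_sets := key (p := fun x => x ∈ Set.univ) ⟨_, hA, DI.const True⟩ [] 0 (by simp) (by simp)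
      sets_of_superset := fun ⟨e, a, b⟩ h => ⟨e, a, fun x hx => h (b x hx)⟩
      inter_sets := fun ⟨e, a, b⟩ ⟨e', a', b'⟩ => by
        obtain ⟨k, c, d⟩ := key (hS.dm_and (dc e) (dc e')) [e, e'] 0 (by simp [a, a']) (by simp)
        exact ⟨k, c, fun x hx => ⟨b x (d x hx).1, b' x (d x hx).2⟩⟩ }
  refine ⟨U, l, ?_, ⟨⟨fun h => ?_⟩, fun _ => Iff.rfl, fun n => ?_, ?_⟩, ?_⟩
  · exact red_of_di ((h2 0).di.of_iff fun _ => by simp)
  · obtain ⟨e, a, b⟩ : ∅ ∈ l := h ▸ mem_bot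
    obtain ⟨x, -, c⟩ := h1 [(e, true)] (by simpa using a) 0
    exact b x (c _ List.mem_cons_self)
  · exact key (p := fun x => n < x) ⟨_, hA, by fun_prop⟩ [] n (by simp) fun x h _ _ => h
  · rintro _ ⟨e, rfl⟩
    cases hu : U e
    · obtain ⟨k, hk⟩ := hS.exists_col (p := fun x => col (C 0) e x = false)
        ⟨_, col_mem _ e, DI.eq CI.oracle (by fun_prop)⟩
      refine ⟨false, k, ?_, fun x => (hk x).1⟩
      cases hv : U k
      · obtain ⟨x, -, c⟩ := h1 [(e, false), (k, false)] (by simpa using ⟨hu, hv⟩) 0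
        have := (hk x).2 (c _ List.mem_cons_self)
        rw [c (k, false) (by simp)] at this
        exact this
      · rfl
    · exact ⟨true, e, hu, fun _ h => h⟩
  · exact key ⟨_, hA, (Red.refl _).di⟩ [] 0 (by simp) fun x _ h _ => h

/-- a finite homogeneous set -/
def HF (F : ℕ × ℕ → Bool) (ρ : Finset ℕ) (b : Bool) : Prop :=
  ∀ x ∈ ρ, ∀ y ∈ ρ, x < y → F (x, y) = b

/-- conditions -/
def Cd (C U : ℕ → Bool) (F : ℕ × ℕ → Bool) (T : Bool → Finset ℕ) (e : ℕ) : Prop :=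
  U e = true ∧ ∀ b, HF F (T b) b ∧ ∀ y, col C e y = true → ∀ x ∈ T b, x < y ∧ F (x, y) = b

/-- extension of conditions -/
def Le (C : ℕ → Bool) (T : Bool → Finset ℕ) (e : ℕ) (T' : Bool → Finset ℕ) (e' : ℕ) : Prop :=
  Sb (col C e') (col C e) ∧ ∀ b, T b ⊆ T' b ∧ ∀ x ∈ T' b, x ∈ T b ∨ col C e x = true

/-- the positive answer is forced -/
def Dp (C X : ℕ → Bool) (s : Finset ℕ) (e m : ℕ) : Prop := ∀ G, Ex s (col C e) G → Hl X G m

/-- a homogeneous extension gives the positive answer -/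
def Dq (C X : ℕ → Bool) (F : ℕ × ℕ → Bool) (s : Finset ℕ) (e : ℕ) (b : Bool) (m : ℕ) : Prop :=
  ∃ ρ : Finset ℕ, Fs ρ (col C e) ∧ HF F ρ b ∧ Hl X (ch (s ∪ ρ)) m

variable {C U X Z : ℕ → Bool} {F : ℕ × ℕ → Bool} {l : Filter ℕ} {g : ℕ → Bool}
  {T T' T'' : Bool → Finset ℕ} {e e' e'' : ℕ}

theorem Le.trans (h : Le C T e T' e') (h' : Le C T' e' T'' e'') : Le C T e T'' e'' :=
  ⟨h'.1.trans h.1, fun b => ⟨(h.2 b).1.trans (h'.2 b).1, fun x hx =>
    ((h'.2 b).2 x hx).elim ((h.2 b).2 x) fun a => Or.inr (h.1 x a)⟩⟩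

theorem di_hf {ρ : α → Finset ℕ} {b : α → Bool} (hF : CI Z F) (hρ : CI Z ρ) (hb : CI Z b) :
    DI Z fun a => HF F (ρ a) (b a) :=
  DI.allF (DI.allF (DI.imp (by fun_prop) (by fun_prop)) (by fun_prop)) hρ

theorem ext (hl : Flt C U l) (hg : ∀ x, ∀ᶠ y in l, F (x, y) = g x) (h : Cd C U F T e)
    (ρ : Bool → Finset ℕ) (h1 : ∀ b, Fs (ρ b) (col C e)) (h2 : ∀ b, HF F (ρ b) b)
    (h3 : ∀ b, ∀ x ∈ ρ b, g x = b) {p : ℕ → Prop} (hp : ∀ᶠ y in l, p y) :
    ∃ e', Cd C U F (fun b => T b ∪ ρ b) e' ∧ Le C T e (fun b => T b ∪ ρ b) e' ∧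
      ∀ y, col C e' y = true → p y := by
  have a1 : ∀ᶠ y in l, col C e y = true := (hl.iff _).2 ⟨e, h.1, fun _ h => h⟩
  have a2 : ∀ᶠ y in l, ∀ b, ∀ x ∈ ρ b, x < y ∧ F (x, y) = b :=
    eventually_all.2 fun b => (eventually_all_finset _).2 fun x hx =>
      (hl.tail x).and (h3 b x hx ▸ hg x)
  obtain ⟨k, a, c⟩ := (hl.iff _).1 (a1.and (a2.and hp))
  refine ⟨k, ⟨a, fun b => ⟨fun x hx y hy hxy => ?_, fun y hy x hx => ?_⟩⟩,
    ⟨fun y hy => (c y hy).1, fun b => ⟨Finset.subset_union_left, fun x hx => ?_⟩⟩,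
    fun y hy => (c y hy).2.2⟩
  · rcases Finset.mem_union.1 hx with hx | hx <;> rcases Finset.mem_union.1 hy with hy | hy
    · exact (h.2 b).1 x hx y hy hxy
    · exact ((h.2 b).2 y (h1 b y hy) x hx).2
    · exact absurd ((h.2 b).2 x (h1 b x hx) y hy).1 (by omega)
    · exact h2 b x hx y hy hxy
  · exact (Finset.mem_union.1 hx).elim ((h.2 b).2 y (c y hy).1 x) ((c y hy).2.1 b x)
  · exact (Finset.mem_union.1 hx).imp_right (h1 b x)

theorem step (hS : Scott C) (hX : X ∈ M C) (hF : CI X F) (hl : Flt C U l)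
    (hg : ∀ x, ∀ᶠ y in l, F (x, y) = g x) (hb : ∀ b, ∃ᶠ x in l, g x = b) (h : Cd C U F T e)
    (m : Bool → ℕ) : ∃ T' e', Cd C U F T' e' ∧ Le C T e T' e' ∧ (∀ b, (T b).card < (T' b).card) ∧
      ∃ b, Dp C X (T' b) e' (m b) ∨ ¬ Dq C X F (T' b) e' b (m b) := by
  have a1 : ∀ᶠ y in l, col C e y = true := (hl.iff _).2 ⟨e, h.1, fun _ h => h⟩
  choose x hx using fun b => ((hb b).and_eventually a1).exists
  obtain ⟨k, c1, c2, -⟩ := ext hl hg h (fun b => {x b}) (fun b y hy => by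
      rw [Finset.mem_singleton.1 hy]; exact (hx b).2)
    (fun b y hy z hz hyz => by
      rw [Finset.mem_singleton] at hy hz; omega)
    (fun b y hy => by rw [Finset.mem_singleton.1 hy]; exact (hx b).1)
    (Eventually.of_forall fun _ => trivial)
  have c3 : ∀ b, (T b).card < ((fun b => T b ∪ {x b}) b).card := fun b =>
    Finset.card_lt_card ⟨Finset.subset_union_left, fun hs =>
      lt_irrefl _ ((h.2 b).2 _ (hx b).2 _ (hs (by simp))).1⟩
  generalize (fun b => T b ∪ {x b}) = S at c1 c2 c3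
  suffices ∃ T' e', Cd C U F T' e' ∧ Le C S k T' e' ∧
      ∃ b, Dp C X (T' b) e' (m b) ∨ ¬ Dq C X F (T' b) e' b (m b) by
    obtain ⟨T', e', d1, d2, d3⟩ := this
    exact ⟨T', e', d1, c2.trans d2, fun b => (c3 b).trans_le (Finset.card_le_card (d2.2 b).1), d3⟩
  let Q : (ℕ → Bool) → Prop := fun Y => ∃ b, ∃ ρ : Finset ℕ,
    (Fs ρ (col C k) ∧ HF F ρ b ∧ Hl X (ch (S b ∪ ρ)) (m b)) ∧ ∀ x ∈ ρ, Y x = b
  by_cases hq : Q g
  · obtain ⟨b, ρ, ⟨q1, q2, q3⟩, q4⟩ := hq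
    obtain ⟨u, hu⟩ := q3.force
    obtain ⟨k', d1, d2, d3⟩ := ext hl hg c1 (fun c => if c = b then ρ else ∅)
      (fun c => by split_ifs; exacts [q1, fun _ h => by simp at h])
      (fun c => by
        split_ifs with hc
        exacts [hc ▸ q2, fun _ h => by simp at h])
      (fun c => by
        split_ifs with hc
        exacts [hc ▸ q4, fun _ h => by simp at h]) (hl.tail u)
    exact ⟨_, k', d1, d2, b, Or.inl fun G hG => hu _ G d3 (by simpa using hG)⟩
  · obtain ⟨V, hV, r1, r2⟩ := hS.exists_ub hX (col_mem C k)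
    have hFV := hF.mono r1
    have hS' : CI V S := CI.of_comp (Primrec.dom_bool S).to_comp
    have hm' : CI V m := CI.of_comp (Primrec.dom_bool m).to_comp
    obtain ⟨Y, hY, hn⟩ := hS.wkl V hV Q (S1.ex (S1.ex (S1.and (S1.of_sig
      ((Sig.of_di (di_fs (by fun_prop) r2)).and ((Sig.of_di (di_hf hFV (by fun_prop)
        (by fun_prop))).and (sig_hl r1 (by fun_prop) (by fun_prop)))))
      (S1.allF (S1.query (by fun_prop) (by fun_prop)) (by fun_prop))))) ⟨g, hq⟩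
    obtain ⟨b, hb'⟩ := hl.em Y hY
    obtain ⟨k', d1, d2, d3⟩ := ext hl hg c1 (fun _ => ∅) (fun _ _ h => by simp at h)
      (fun _ _ h => by simp at h) (fun _ _ h => by simp at h) hb'
    refine ⟨_, k', d1, d2, b, Or.inr fun ⟨ρ, q1, q2, q3⟩ => hn ⟨b, ρ, ⟨q1.mono d2.1, q2, ?_⟩,
      fun x hx => d3 x (q1 x hx)⟩⟩
    simpa using q3

theorem sig_dp (hX : Red X C) : Sig C fun a : Finset ℕ × ℕ × ℕ => Dp C X a.1 a.2.1 a.2.2 := by
  have h1 : S1 C fun G (a : Finset ℕ × ℕ × ℕ) => (∃ x, (x ∈ a.1 ∧ G x = false) ∨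
      (G x = true ∧ x ∉ a.1 ∧ col C a.2.1 x = false)) ∨ Hl X G a.2.2 :=
    S1.or (S1.ex (S1.or (S1.and (S1.of_di (by fun_prop)) (S1.query (by fun_prop) (by fun_prop)))
      (S1.and (S1.query (by fun_prop) (by fun_prop)) (S1.of_di (DI.and (by fun_prop)
        (DI.eq (ci_col (by fun_prop) (by fun_prop)) (by fun_prop)))))))
      ((S1.univ.mono hX).comp (g := fun a : Finset ℕ × ℕ × ℕ => a.2.2) (by fun_prop))
  refine h1.forall_sig.of_iff fun a => forall_congr' fun G => ?_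
  rw [imp_iff_not_or]
  refine or_congr_left ?_
  simp only [Ex, Fs, not_and_or, not_forall, not_or, Bool.not_eq_true, exists_or, exists_prop]

theorem sig_dq (hX : Red X C) (hF : CI C F) :
    Sig C fun a : (Finset ℕ × ℕ × ℕ) × Bool => Dq C X F a.1.1 a.1.2.1 a.2 a.1.2.2 := by
  unfold Dq Fs
  exact Sig.ex (Sig.and (Sig.of_di (DI.allF (DI.eq (ci_col (by fun_prop) (by fun_prop))
    (by fun_prop)) (by fun_prop))) (Sig.and (Sig.of_di (di_hf hF (by fun_prop) (by fun_prop)))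
      (sig_hl hX (by fun_prop) (by fun_prop))))

theorem di_all {p : α → ℕ → Prop} (hJ : Red (jump C) Z) (h : DI C fun x : α × ℕ => p x.1 x.2) :
    DI Z fun a => ∀ y, p a y :=
  ((Sig.ex (r := fun a y => ¬ p a y) (Sig.of_di h.not)).di_jump.mono hJ).not.of_iff fun _ => by simp

theorem di_bool {p : α → Bool → Prop} (h : DI Z fun x : α × Bool => p x.1 x.2) :
    DI Z fun a => ∀ b, p a b :=
  (DI.allL (l := fun _ => [true, false]) h (by fun_prop)).of_iff fun _ => by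
    simp [Bool.forall_bool]

/-- the two stems of a state -/
def st (s : (Finset ℕ × Finset ℕ) × ℕ × ℕ) (b : Bool) : Finset ℕ := bif b then s.1.1 else s.1.2

/-- the two questions -/
def qu (t : ℕ) (b : Bool) : ℕ := bif b then t.unpair.1 else t.unpair.2

@[fun_prop] theorem ci_st {s : α → (Finset ℕ × Finset ℕ) × ℕ × ℕ} {b : α → Bool} (hs : CI Z s)
    (hb : CI Z b) : CI Z fun a => st (s a) (b a) := by
  unfold st
  fun_prop

@[fun_prop] theorem ci_qu {t : α → ℕ} {b : α → Bool} (hs : CI Z t)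
    (hb : CI Z b) : CI Z fun a => qu (t a) (b a) := by
  unfold qu
  fun_prop

theorem caseA {A : ℕ → Bool} (hS : Scott C) (hX : X ∈ M C) (hF : CI X F) (hl : Flt C U l)
    (hg : ∀ x, ∀ᶠ y in l, F (x, y) = g x) (hb : ∀ b, ∃ᶠ x in l, g x = b)
    (hA : ∀ᶠ x in l, A x = true) (hU : CI Z U) (hJ : Red (jump C) Z) :
    ∃ H c, Sb H A ∧ Inf H ∧ Hom F c H ∧ Red (jump (join X H)) Z := by
  have hXC : Red X C := red_of_mem hX
  have hFC : CI C F := hF.mono hXC
  have hCZ : Red C Z := (red_jump C).trans hJ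
  have dp := (sig_dp hXC).di_jump.mono hJ
  have dq := ((sig_dq hXC hFC).di_jump.mono hJ).not
  obtain ⟨e0, a0, b0⟩ := (hl.iff _).1 hA
  obtain ⟨R, hR, r0, r1⟩ := exists_path (X := Z) (σ := (Finset ℕ × Finset ℕ) × ℕ × ℕ)
    (r := fun s s' => Cd C U F (st s') s'.2.1 ∧ Le C (st s) s.2.1 (st s') s'.2.1 ∧
      (∀ b, (st s b).card < (st s' b).card) ∧ s'.2.2 = s.2.2 + 1 ∧
      ∃ b, Dp C X (st s' b) s'.2.1 (qu s.2.2 b) ∨ ¬ Dq C X F (st s' b) s'.2.1 b (qu s.2.2 b))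
    (I := fun s => Cd C U F (st s) s.2.1)
    (Sig.and (Sig.of_di (DI.and (by fun_prop) (di_bool (DI.and
        (di_hf (hFC.mono hCZ) (by fun_prop) (by fun_prop))
        (di_all hJ (DI.imp (DI.eq (ci_col (by fun_prop) (by fun_prop)) (by fun_prop))
          (DI.allF (by fun_prop) (by fun_prop))))))))
      (Sig.and (Sig.of_di (DI.and
        (di_all hJ (DI.imp (DI.eq (ci_col (by fun_prop) (by fun_prop)) (by fun_prop))
          (DI.eq (ci_col (by fun_prop) (by fun_prop)) (by fun_prop))))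
        ((di_bool (DI.and (by fun_prop) (DI.allF (DI.or (by fun_prop)
          (DI.eq (ci_col (by fun_prop) (by fun_prop)) (by fun_prop))) (by fun_prop)))).mono hCZ)))
      (Sig.and (Sig.of_di (di_bool (by fun_prop))) (Sig.and (Sig.of_di (by fun_prop))
        (Sig.ex (Sig.of_di (DI.or
          (dp.comp (g := fun x : (((Finset ℕ × Finset ℕ) × ℕ × ℕ) × (Finset ℕ × Finset ℕ) × ℕ × ℕ) ×
            Bool => (st x.1.2 x.2, x.1.2.2.1, qu x.1.1.2.2 x.2)) (by fun_prop))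
          (dq.comp (g := fun x : (((Finset ℕ × Finset ℕ) × ℕ × ℕ) × (Finset ℕ × Finset ℕ) × ℕ × ℕ) ×
            Bool => ((st x.1.2 x.2, x.1.2.2.1, qu x.1.1.2.2 x.2), x.2)) (by fun_prop)))))))))
    (s0 := ((∅, ∅), e0, 0)) ⟨a0, fun b => by cases b <;> simp [st, HF]⟩ (fun _ _ _ h => h.1)
    (fun s hs => by
      obtain ⟨T', e', d1, d2, d3, d4⟩ := step hS hX hF hl hg hb hs (qu s.2.2)
      have : st ((T' true, T' false), e', s.2.2 + 1) = T' := funext fun b => by cases b <;> rfl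
      refine ⟨((T' true, T' false), e', s.2.2 + 1), ?_⟩
      rw [this]
      exact ⟨d1, d2, d3, rfl, d4⟩)
  have rt : ∀ t, (R t).2.2 = t := fun t => by
    induction t with
    | zero => rw [r0]
    | succ t ih => rw [(r1 t).2.2.2.1, ih]
  obtain ⟨b, hd⟩ : ∃ b, ∀ m, ∃ t, Dp C X (st (R t) b) (R t).2.1 m ∨
      ¬ Dq C X F (st (R t) b) (R t).2.1 b m := by
    by_contra hc
    simp only [not_exists, not_forall] at hc
    choose m hm using hc
    obtain ⟨b, h⟩ := (r1 (Nat.pair (m true) (m false))).2.2.2.2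
    rw [rt, show qu (Nat.pair (m true) (m false)) b = m b by cases b <;> simp [qu]] at h
    exact hm b _ h
  obtain ⟨G, -, g2, g3⟩ := exists_limit (fun t => st (R t) b) (fun t => col C (R t).2.1)
    (fun t => ((r1 t).2.1.2 b).1) (fun t => ((r1 t).2.1.2 b).2) fun t => (r1 t).2.1.1
  have hom : Hom F b G := fun x y hxy hx hy => by
    obtain ⟨n, hn⟩ := g3 {x, y} (by simp [Fs, hx, hy])
    have := hn.trans ((r1 n).2.1.2 b).1
    exact ((r1 n).1.2 b).1 x (this (by simp)) y (this (by simp)) hxy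
  have neg : ∀ t m, Hl X G m → Dq C X F (st (R t) b) (R t).2.1 b m := fun t m h => by
    obtain ⟨ρ, q1, q2, q3⟩ := h.stem (g2 t)
    exact ⟨ρ, q1, fun x hx y hy hxy => hom x y hxy (q2 x hx) (q2 y hy), q3⟩
  refine ⟨G, b, fun x hx => ?_, fun hf => ?_, hom, red_of_di (Sig.post ?_ ?_)⟩
  · have := (g2 0).2 x hx
    rw [r0] at this
    exact b0 x (this.resolve_left (by cases b <;> simp [st]))
  · have h1 : ∀ t, t ≤ (st (R t) b).card := fun t => by
      induction t with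
      | zero => exact Nat.zero_le _
      | succ t ih => exact Nat.succ_le_of_lt (ih.trans_lt ((r1 t).2.2.1 b))
    have h2 : st (R (hf.toFinset.card + 1)) b ⊆ hf.toFinset := fun x hx =>
      hf.mem_toFinset.2 ((g2 _).1 x hx)
    have := (h1 _).trans (Finset.card_le_card h2)
    omega
  · refine (Sig.ex (r := fun m t => Dp C X (st (R t) b) (R t).2.1 m) (Sig.of_di (dp.comp
      (g := fun x : ℕ × ℕ => (st (R x.2) b, (R x.2).2.1, x.1)) (by fun_prop)))).of_iff fun m =>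
        ⟨fun ⟨t, h⟩ => h G (g2 t), fun h => (hd m).imp fun t ht =>
          ht.resolve_right fun h' => h' (neg t m h)⟩
  · refine (Sig.ex (r := fun m t => ¬ Dq C X F (st (R t) b) (R t).2.1 b m) (Sig.of_di (dq.comp
      (g := fun x : ℕ × ℕ => ((st (R x.2) b, (R x.2).2.1, x.1), b)) (by fun_prop)))).of_iff fun m =>
        ⟨fun ⟨t, h⟩ h' => h (neg t m h'), fun h => (hd m).imp fun t ht =>
          ht.resolve_left fun h' => h (h' G (g2 t))⟩

theorem caseB {A : ℕ → Bool} (hX : X ∈ M C) (hF : CI X F) (hl : Flt C U l)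
    (hg : ∀ x, ∀ᶠ y in l, F (x, y) = g x) {b : Bool} (hb : ∀ᶠ x in l, g x = b)
    (hA : ∀ᶠ x in l, A x = true) : ∃ H, Sb H A ∧ Inf H ∧ Hom F b H ∧ Red (join X H) C := by
  have := hl.ne
  obtain ⟨e, a, c⟩ := (hl.iff _).1 (hA.and hb)
  have a1 : ∀ᶠ y in l, col C e y = true := (hl.iff _).2 ⟨e, a, fun _ h => h⟩
  have hXC : Red X C := red_of_mem hX
  have hFC : CI C F := hF.mono hXC
  obtain ⟨H, h1, h2, h3⟩ := greedy (X := C)
    (p := fun B y => col C e y = true ∧ ∀ x ∈ B, F (x, y) = b)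
    (Sig.of_di (DI.and (DI.eq (ci_col (by fun_prop) (by fun_prop)) (by fun_prop))
      (DI.allF (by fun_prop) (by fun_prop)))) (fun B => Fs B (col C e)) (by simp [Fs])
    (fun B y hB hy x hx => (Finset.mem_insert.1 hx).elim (fun h => h ▸ hy.1) (hB x))
    fun B hB n => ((hl.tail n).and (a1.and ((eventually_all_finset _).2 fun x hx =>
      (c x (hB x hx)).2 ▸ hg x))).exists
  refine ⟨H, fun y hy => ?_, h2, fun x y hxy hx hy => ?_, hXC.join h1⟩
  · obtain ⟨B, -, -, h⟩ := h3 y hy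
    exact (c y h.1).1
  · obtain ⟨B, -, h, h'⟩ := h3 y hy
    exact h'.2 x ((h x).2 ⟨hxy, hx⟩)

end Low2

open Low2 in
theorem all_low2 : S_low2 := by
  intro X A F hA hI hF
  obtain ⟨C, hC, hX, hlow⟩ := exists_tower all_low all_scott X
  have hS := hC.scott 0
  obtain ⟨U, l, hU, hl, hAl⟩ := exists_flt hC (hS.red_mem hX hA) hI
  have hJ : Red (jump (C 0)) (C 1) := hC.red_jump_of_lt (by omega)
  choose g hg using fun x => hl.em (fun y => F (x, y)) (hS.red_mem hX (by unfold Red; fun_prop))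
  by_cases hb : ∀ b, ∃ᶠ x in l, g x = b
  · obtain ⟨H, c, h1, h2, h3, h4⟩ := caseA hS hX hF hl hg hb hAl hU hJ
    exact ⟨H, c, h1, h2, h3, h4.jump.trans (hlow 1)⟩
  · obtain ⟨b, hb⟩ := not_forall.1 hb
    obtain ⟨H, h1, h2, h3, h4⟩ := caseB hX hF hl hg (b := !b)
      ((not_frequently.1 hb).mono fun x hx => Bool.eq_not.2 hx) hAl
    exact ⟨H, _, h1, h2, h3, (h4.jump.trans hJ).jump.trans (hlow 1)⟩

end Pool.Agent.P.MP_9014a2_lc.RR
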