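import Pool.Agent.P.MP_9014a2_lc.R.Basis

/-!
Statements of the pieces.
-/

namespace Pool.Agent.P.MP_9014a2_lc.RR

/-- tuples versus finite sets -/
def S_rt : Prop := ∀ (I : Set (ℕ → Bool)) (n : ℕ), TuringIdeal I → (RT I n ↔ LW I n 1)

/-- boundedly many colours give thin sets -/
def S_t2 : Prop := ∀ (I : Set (ℕ → Bool)) (n d : ℕ), TuringIdeal I → LW I n d → T2 I n

/-- Ramsey's theorem for triples gives closure under the jump -/
def S_jump : Prop := ∀ I : Set (ℕ → Bool), TuringIdeal I → LW I 3 1 → ∀ X ∈ I, jump X ∈ I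

/-- ideals closed under the jump are Scott ideals -/
def S_jsc : Prop := ∀ I : Set (ℕ → Bool), TuringIdeal I → (∀ X ∈ I, jump X ∈ I) → ScottIdeal I

/-- free sets for exponent one -/
def S_fs1 : Prop := ∀ I : Set (ℕ → Bool), TuringIdeal I → T1 I 1

/-- Ramsey's theorem for pairs gives free sets for pairs -/
def S_fs2 : Prop := ∀ I : Set (ℕ → Bool), TuringIdeal I → LW I 2 1 → T1 I 2

/-- preservation from strong preservation one level down -/
def S_wp : Prop := ∀ (E : Bool → ℕ → ℕ → Prop) (n d : ℕ), SP E n d → WP E (n + 1) d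

/-- few colours on split sets -/
def S_coh : Prop := ∀ (E : Bool → ℕ → ℕ → Prop) (n d : ℕ), (∀ s, 1 ≤ s → s ≤ n → SP E s d) →
  ∀ Z X, Hy E Z → Red X Z → Inf X → ∀ (f : Finset ℕ → ℕ) (q : ℕ), (∀ s, f s < q) →
    ∃ Y, ∃ T : Finset ℕ, Sb Y X ∧ Inf Y ∧ Hy E (join Z Y) ∧ T.card ≤ n * d * d ∧ Coh f n T Y

/-- one colour is avoided -/
def S_avoid : Prop := ∀ (E : Bool → ℕ → ℕ → Prop) (n d : ℕ), Dn E → WP E (n + 1) d →
  ∀ Z Y, Hy E Z → Red Y Z → Inf Y → ∀ (f : Finset ℕ → ℕ) (T S : Finset ℕ), Disjoint T S →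
    2 * d + 2 ≤ S.card → Coh f n T Y → ∃ c ∈ S, ∃ H, Sb H Y ∧ Inf H ∧ Hy E (join Z H) ∧
      ∀ s : Finset ℕ, s.card = n + 1 → Fs s H → f s ≠ c

/-- strong preservation for all exponents -/
def S_sp : Prop := ∀ (E : Bool → ℕ → ℕ → Prop) (n : ℕ), Dn E → ∃ d, SP E n d

/-- a computable colouring of pairs whose homogeneous sets destroy a target -/
def S_inst : Prop := ∃ (E : Bool → ℕ → ℕ → Prop) (f : Finset ℕ → ℕ), Dn E ∧
  Hy E (fun _ => false) ∧ CI (fun _ => false) f ∧ (∀ s, f s < 2) ∧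
    ∀ H, Inf H → Few 1 f 2 H → ¬ Hy E H

/-- closing off to a Scott ideal -/
def S_build : Prop := ∀ (L : Set (ℕ → Bool)) (Sol : ℕ → (Finset ℕ → ℕ) → (ℕ → Bool) → Prop),
  L.Nonempty → (∀ X ∈ L, ∀ Y, Red Y X → Y ∈ L) →
  (∀ X ∈ L, ∀ P, Op X P → (∃ Z, ¬ P Z) → ∃ Z, ¬ P Z ∧ join X Z ∈ L) →
  (∀ X ∈ L, ∀ n f, CI X f → ∃ H, Sol n f H ∧ join X H ∈ L) →
  ∃ I, ScottIdeal I ∧ I ⊆ L ∧ ∀ X ∈ I, ∀ n f, CI X f → ∃ H ∈ I, Sol n f H

/-- homogeneous sets for two colours whose double jump is small -/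
def S_low2 : Prop := ∀ (X A : ℕ → Bool) (F : ℕ × ℕ → Bool), Red A X → Inf A → CI X F →
  ∃ H c, Sb H A ∧ Inf H ∧ Hom F c H ∧ Red (jump (jump (join X H))) (jump (jump X))

/-- the same for finitely many colours -/
def S_low2q : Prop := ∀ (X : ℕ → Bool) (f : Finset ℕ → ℕ) (q : ℕ), CI X f → (∀ s, f s < q) →
  ∃ H, Inf H ∧ Few 1 f 2 H ∧ Red (jump (jump (join X H))) (jump (jump X))

/-- a Scott ideal with Ramsey's theorem for pairs and without thin sets for triples -/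
def S_wit2 : Prop := ∃ I, ScottIdeal I ∧ LW I 2 1 ∧ ¬ T2 I 3

/-- a Scott ideal with thin sets for all exponents and without Ramsey's theorem for pairs -/
def S_wit3 : Prop := ∃ I, ScottIdeal I ∧ (∀ n, ∃ d, LW I n d) ∧ ¬ LW I 2 1

end Pool.Agent.P.MP_9014a2_lc.RR
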