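import Pool.Agent.P.MP_9014a2_lc.R.Stm
import Pool.Agent.P.MP_9014a2_lc.W.AK
import Pool.Agent.P.MP_9014a2_lc.W.Wit

/-!
The table of implications.
-/

namespace Pool.Agent.P.MP_9014a2_lc.RR

namespace Table

variable {I : Set (ℕ → Bool)}

theorem to_t2 (hrt : S_rt) (ht2 : S_t2) (hI : TuringIdeal I) (P : Fam) (j : ℕ)
    (h : P.holds I j) : T2 I j := by
  cases P with
  | free => exact Model.t2 hI h
  | thin => exact h
  | ramsey => exact ht2 I j 1 hI ((hrt I j hI).1 h)

theorem to_t1 (hI : ScottIdeal I) {j : ℕ} (hj : 1 ≤ j) (h : T2 I j) : T1 I j :=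
  TF.t1_of_t2 I hI.toTuringIdeal (fun _ hX _ hP hne => hI.closed hX hP hne) hj h le_rfl

theorem lvl_nat {P : Set (ℕ → Bool) → ℕ → Prop} {k : ℕ} : Lvl P I k ↔ P I k :=
  ⟨fun h => h.1 k rfl, fun h => ⟨fun j hj => by
    obtain rfl : k = j := by exact_mod_cast hj
    exact h, fun hj => absurd hj (ENat.natCast_ne_top k)⟩⟩

theorem lvl_of {P : Set (ℕ → Bool) → ℕ → Prop} {m : ℕ∞} (hm : 1 ≤ m)
    (h : ∀ j : ℕ, 1 ≤ j → (j : ℕ∞) ≤ m → P I j) : Lvl P I m :=
  ⟨fun j hj => h j (by rw [hj] at hm; exact_mod_cast hm) hj.ge, fun ht j h0 => h j h0 (ht ▸ le_top)⟩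

theorem of_lvl {P : Set (ℕ → Bool) → ℕ → Prop} {k : ℕ∞} (h : Lvl P I k) {j : ℕ} (h0 : 1 ≤ j)
    (hj : (j : ℕ∞) ≤ k) : ∃ i, j ≤ i ∧ P I i := by
  induction k using ENat.recTopCoe with
  | top => exact ⟨j, le_rfl, h.2 rfl j h0⟩
  | coe k => exact ⟨k, by exact_mod_cast hj, h.1 k rfl⟩

end Table

open Table in
theorem table (hrt : S_rt) (ht2 : S_t2) (hj : S_jump) (hjs : S_jsc) (h1 : S_fs1) (h2 : S_fs2)
    (w2 : S_wit2) (w3 : S_wit3) (P Q : Fam) (k m : ℕ∞) (hk : 1 ≤ k) (hm : 1 ≤ m)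
    (hP : P = .ramsey → k = 2 ∨ k = ⊤) (hQ : Q = .ramsey → m = 2 ∨ m = ⊤)
    (K : Set (ℕ → Bool) → Prop)
    (hK : K = ScottIdeal ∨ K = TuringIdeal ∧ ¬ (P = .thin ∧ Q = .free ∧ 2 ≤ m ∧ m ≤ k)) :
    (∀ I, K I → Lvl P.holds I k → Lvl Q.holds I m) ↔ m ≤ k ∧ (Q = .ramsey → P = .ramsey) := by
  constructor
  · intro h0
    have h : ∀ I, ScottIdeal I → Lvl P.holds I k → Lvl Q.holds I m := fun I hI => by
      rcases hK with rfl | ⟨rfl, -⟩
      · exact h0 I hI
      · exact h0 I hI.toTuringIdeal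
    refine ⟨by_contra fun hn => ?_, fun hq => by_contra fun hp => ?_⟩
    · rw [not_le] at hn
      lift k to ℕ using hn.ne_top
      have hk' : 1 ≤ k := by exact_mod_cast hk
      obtain ⟨I, hI, a, b⟩ : ∃ I, ScottIdeal I ∧ P.holds I k ∧ ¬ T2 I (k + 1) := by
        cases P with
        | free =>
          obtain ⟨I, hI, a⟩ := scott_wit hk'
          exact ⟨I, hI, ((a k).1 le_rfl hk').1, ((a (k + 1)).2 k.lt_succ_self).2⟩
        | thin =>
          obtain ⟨I, hI, a⟩ := scott_wit hk'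
          exact ⟨I, hI, ((a k).1 le_rfl hk').2, ((a (k + 1)).2 k.lt_succ_self).2⟩
        | ramsey =>
          obtain ⟨I, hI, a, b⟩ := w2
          obtain rfl : k = 2 := by
            exact_mod_cast (hP rfl).resolve_right (ENat.natCast_ne_top k)
          exact ⟨I, hI, (hrt I 2 hI.toTuringIdeal).2 a, b⟩
      obtain ⟨i, hi, c⟩ := of_lvl (h I hI (lvl_nat.2 a)) (j := k + 1) (by omega)
        (by push_cast; exact Order.add_one_le_of_lt hn)
      exact b (T2.mono hI.toTuringIdeal (to_t2 hrt ht2 hI.toTuringIdeal Q i c) hi)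
    · subst hq
      obtain ⟨I, hI, a, b⟩ := w3
      have c : ∀ j, T2 I j := fun j => let ⟨d, hd⟩ := a j; ht2 I j d hI.toTuringIdeal hd
      have e := h I hI (lvl_of hk fun j hj0 _ => by
        cases P with
        | free => exact to_t1 hI hj0 (c j)
        | thin => exact c j
        | ramsey => exact absurd rfl hp)
      refine b ((hrt I 2 hI.toTuringIdeal).1 ?_)
      rcases hQ rfl with rfl | rfl
      · exact e.1 2 rfl
      · exact e.2 rfl 2 (by omega)
  · rintro ⟨hmk, hq⟩ I hI h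
    have hT : TuringIdeal I := by
      rcases hK with rfl | ⟨rfl, -⟩
      · exact hI.toTuringIdeal
      · exact hI
    have c : ∀ j : ℕ, 1 ≤ j → (j : ℕ∞) ≤ m → T2 I j := fun j h0 hj => by
      obtain ⟨i, hi, e⟩ := of_lvl h h0 (hj.trans hmk)
      exact T2.mono hT (to_t2 hrt ht2 hT P i e) hi
    cases Q with
    | thin => exact lvl_of hm c
    | ramsey =>
      obtain rfl := hq rfl
      rcases hQ rfl with rfl | rfl
      · rcases hP rfl with rfl | rfl
        · exact h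
        · exact lvl_nat.2 (h.2 rfl 2 (by omega))
      · obtain rfl : k = ⊤ := top_le_iff.1 hmk
        exact h
    | free =>
      refine lvl_of hm fun j h0 hjm => ?_
      cases P with
      | free =>
        obtain ⟨i, hi, e⟩ := of_lvl h h0 (hjm.trans hmk)
        exact T1.mono hT e h0 hi
      | thin =>
        rcases hK with rfl | ⟨rfl, hn⟩
        · exact to_t1 hI h0 (c j h0 hjm)
        · have e : (j : ℕ∞) < 2 := hjm.trans_lt (not_le.1 fun h2 => hn ⟨rfl, rfl, h2, hmk⟩)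
          obtain rfl : j = 1 := by
            have : j < 2 := by exact_mod_cast e
            omega
          exact h1 I hT
      | ramsey =>
        rcases hP rfl with rfl | rfl
        · exact T1.mono hT (h2 I hT ((hrt I 2 hT).1 (h.1 2 rfl))) h0
            (by exact_mod_cast hjm.trans hmk)
        · exact to_t1 (hjs I hT (hj I hT ((hrt I 3 hT).1 (h.2 rfl 3 (by omega))))) h0 (c j h0 hjm)

end Pool.Agent.P.MP_9014a2_lc.RR
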