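import Pool.Agent.P.MP_9014a2_lc.R.Stm

/-!
Tuples versus finite sets, and thin sets from boundedly many colours.
-/

namespace Pool.Agent.P.MP_9014a2_lc.RR

open Pool.Agent.Lib.Helper43 Encodable

namespace Tup

theorem length_toL (s : Finset ℕ) : (toL s).length = s.card := by
  rw [← List.toFinset_card_of_nodup (nodup_toL _), toFinset_toL]

theorem toL_ofFn {n : ℕ} {x : Fin n → ℕ} (hx : StrictMono x) :
    toL (List.ofFn x).toFinset = List.ofFn x :=
  List.Pairwise.eq_of_mem_iff (r := (· < ·)) (List.pairwise_lt_range.filter _)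
    (List.pairwise_ofFn.2 fun _ _ h => hx h) fun a => by rw [mem_toL, List.mem_toFinset]

/-- all lists of a given length over a list -/
def pw (L : List ℕ) : ℕ → List (List ℕ)
  | 0 => [[]]
  | n + 1 => (pw L n).flatMap fun l => L.map fun a => a :: l

theorem pw_comp (n : ℕ) : Computable fun L => pw L n := by
  induction n with
  | zero => exact Computable.const _
  | succ n ih =>
    show Computable fun L : List ℕ => (pw L n).flatMap fun l => L.map fun a => a :: l
    exact CFP.flatMap (by fun_prop) ih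

theorem pw_length (L : List ℕ) (n : ℕ) : (pw L n).length = L.length ^ n := by
  induction n with
  | zero => rfl
  | succ n ih => simp [pw, List.length_flatMap, ih, pow_succ]

theorem mem_pw {L : List ℕ} (l : List ℕ) (h : ∀ x ∈ l, x ∈ L) : l ∈ pw L l.length := by
  induction l with
  | nil => simp [pw]
  | cons a l ih =>
    exact List.mem_flatMap.2 ⟨l, ih fun x hx => h x (List.mem_cons_of_mem _ hx),
      List.mem_map.2 ⟨a, h a List.mem_cons_self, rfl⟩⟩

theorem sup {A : ℕ → Bool} (hA : Inf A) {t : Finset ℕ} (ht : Fs t A) {n : ℕ} (hn : t.card ≤ n) :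
    ∃ s : Finset ℕ, t ⊆ s ∧ s.card = n ∧ Fs s A := by
  obtain ⟨u, hu, hc⟩ := hA.exists_subset_card_eq n
  obtain ⟨s, h1, h2, h3⟩ := Finset.exists_subsuperset_card_eq (Finset.subset_union_left (s₂ := u))
    hn (hc ▸ Finset.card_le_card Finset.subset_union_right)
  exact ⟨s, h1, h3, fun x hx => (Finset.mem_union.1 (h2 hx)).elim (ht x) fun h => hu h⟩

end Tup

open Tup

theorem all_rt : S_rt := by
  intro I n hI
  constructor
  · intro h X hX f hf q hq
    obtain ⟨G, hG, hg⟩ := WL.to_graph n (X := X) (F := fun l => f l.toFinset) (by fun_prop)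
    obtain ⟨A, hA, h1, c, h2⟩ := h _ ⟨G, hI.red hX hG, hg⟩ ⟨q, fun x => hq _⟩
    refine ⟨A, hA, h1, {c}, by simp, fun s hs h3 => Finset.mem_singleton.2 ?_⟩
    have h4 := h2 (s.orderEmbOfFin hs) (s.orderEmbOfFin hs).strictMono
      fun i => h3 _ (s.orderEmbOfFin_mem hs i)
    have e : (List.ofFn (s.orderEmbOfFin hs)).toFinset = s := by
      ext a
      rw [List.mem_toFinset, List.mem_ofFn, ← Finset.mem_coe, ← s.range_orderEmbOfFin hs]
      rfl
    rwa [e] at h4
  · rintro h F ⟨G, hG, hF⟩ ⟨q, hq⟩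
    obtain ⟨Fh, h1, e⟩ := WL.of_graph hF
    obtain ⟨A, hA, h2, S, hS, h3⟩ := h G hG (fun s => if s.card = n then Fh (toL s) else 0)
      (by fun_prop) q fun s => by
        split_ifs with hs
        · rw [← Model.ofFn_getD ((length_toL s).trans hs), e]
          exact hq _
        · exact (Nat.zero_le _).trans_lt (hq fun _ => 0)
    obtain ⟨c, hc⟩ := Finset.card_le_one_iff_subset_singleton.1 hS
    refine ⟨A, hA, h2, c, fun x hx h4 => ?_⟩
    have h5 : (List.ofFn x).toFinset.card = n := by
      rw [← length_toL, toL_ofFn hx, List.length_ofFn]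
    have h6 := hc (h3 _ h5 fun y hy => by
      obtain ⟨i, rfl⟩ := List.mem_ofFn.1 (List.mem_toFinset.1 hy)
      exact h4 i)
    beta_reduce at h6
    rwa [if_pos h5, toL_ofFn hx, e, Finset.mem_singleton] at h6

theorem all_t2 : S_t2 := by
  intro I n d hI h
  refine (t2_iff hI).2 fun X hX F hF => ?_
  have hp : CI X fun s : Finset ℕ => pw (toL s) n := CI.of_comp ((pw_comp n).comp computable_toL)
  let T : Finset ℕ → Finset ℕ := fun s =>
    ((pw (toL s) n).map F).toFinset ∩ Finset.range (d * n ^ n + 1)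
  have hm : CI X fun s : Finset ℕ => (pw (toL s) n).map F :=
    CI.map (g := fun _ l => F l) (by fun_prop) hp
  have hT : CI X T := CI.interF ((CI.of_comp computable_toFinset).comp hm) (CI.const _)
  obtain ⟨A, hA, h1, S, hS, h2⟩ := h X hX (fun s => fc (T s)) ((CI.of_comp computable_fc).comp hT)
    (2 ^ (d * n ^ n + 1)) fun s => (fc_eq _).trans_lt
      (Nat.geomSum_lt le_rfl fun _ hk => Finset.mem_range.1 (Finset.mem_inter.1 hk).2)
  have hU : ((S.filter fun x => (fd x).card ≤ n ^ n).biUnion fd).card <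
      (Finset.range (d * n ^ n + 1)).card := by
    rw [Finset.card_range, Nat.lt_succ_iff]
    exact (Finset.card_biUnion_le_card_mul _ _ _ fun x hx => (Finset.mem_filter.1 hx).2).trans
      (Nat.mul_le_mul_right _ ((Finset.card_filter_le _ _).trans hS))
  obtain ⟨c, hc, hc'⟩ := Finset.exists_mem_notMem_of_card_lt_card hU
  refine ⟨A, hA, h1, c, fun l hl h3 h4 => hc' ?_⟩
  obtain ⟨s, k1, k2, k3⟩ := sup h1 (t := l.toFinset) (fun x hx => h3 x (List.mem_toFinset.1 hx))
    (hl ▸ List.toFinset_card_le l)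
  refine Finset.mem_biUnion.2 ⟨fc (T s), Finset.mem_filter.2 ⟨h2 s k2 k3, ?_⟩, ?_⟩
  · rw [fd_fc]
    refine (Finset.card_le_card Finset.inter_subset_left).trans
      ((List.toFinset_card_le _).trans ?_)
    rw [List.length_map, pw_length, length_toL, k2]
  · rw [fd_fc]
    refine Finset.mem_inter.2 ⟨List.mem_toFinset.2 (List.mem_map.2 ⟨l, ?_, h4⟩), hc⟩
    exact hl ▸ mem_pw l fun x hx => mem_toL.2 (k1 (List.mem_toFinset.2 hx))

end Pool.Agent.P.MP_9014a2_lc.RR
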