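import Pool.Agent.P.MP_9014a2_lc.R.Stm

/-!
Preservation from strong preservation one level down.
-/

namespace Pool.Agent.P.MP_9014a2_lc.RR

open Pool.Agent.Lib.Helper43 Encodable Filter

namespace Wp

/-- an infinite set has an infinite colour class -/
theorem dense {A : ℕ → Bool} (hA : Inf A) (k : ℕ → ℕ) (q : ℕ) (hk : ∀ y, k y < q) :
    ∃ c < q, Inf fun y => A y && decide (k y = c) := by
  by_contra hc
  simp only [not_exists, not_and, Set.not_infinite] at hc
  refine hA ((Set.Finite.biUnion (Set.finite_lt_nat q) fun c h => hc c h).subset fun y hy => ?_)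
  refine Set.mem_biUnion (x := k y) (hk y) ?_
  simpa using hy

end Wp

theorem all_wp : S_wp := by
  intro E n d hSP Z X hZ hX hi f q hf hq
  obtain ⟨G, g1, g2, g3, g4⟩ := gen hZ hX hi (ι := Finset ℕ)
    (fun σ B => ∃ c < q, ∀ y, B y = true → f (insert y σ) = c) fun σ U A hU hZU hA hiA => by
      obtain ⟨c, hc, h⟩ := Wp.dense hiA (fun y => f (insert y σ)) q fun _ => hq _
      have h1 : CI U A := hA
      have h2 : CI U f := hf.mono hZU
      refine ⟨_, fun y hy => ?_, h, hU.join (by unfold Red; fun_prop), c, hc, fun y hy => ?_⟩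
      · exact (Bool.and_eq_true_iff.1 hy).1
      · simpa using (Bool.and_eq_true_iff.1 hy).2
  choose B b hD hb using g4
  choose g hg hB using hD
  obtain ⟨H0, a1, a2, a3, S, a4, a5⟩ := hSP (join Z G) G g3 (red_right _ _) g2 g q hg
  have h1 : CI (join (join Z G) H0) H0 := red_right _ _
  have h2 : CI (join (join Z G) H0) f := hf.mono (red_ll _ _ _)
  obtain ⟨H, b1, b2, b3⟩ := greedy (X := join (join Z G) H0)
    (p := fun A y => H0 y = true ∧ ∀ σ ⊆ A, σ.card = n → f (insert y σ) ∈ S)
    (Sig.of_di (DI.and (by fun_prop) (DI.allSub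
      (r := fun (x : Finset ℕ × ℕ) σ => σ.card = n → f (insert x.2 σ) ∈ S)
      (DI.imp (by fun_prop) (by fun_prop)) (by fun_prop))))
    (fun A => Fs A H0) (fun _ h => absurd h (Finset.notMem_empty _))
    (fun A y hA h x hx => (Finset.mem_insert.1 hx).elim (fun e => e ▸ h.1) (hA x))
    (fun A hA c => by
      obtain ⟨y, hy, hl⟩ := a2.exists_gt (max c (A.powerset.sup b))
      refine ⟨y, by omega, hy, fun σ hσ hn => ?_⟩
      have : b σ ≤ A.powerset.sup b := Finset.le_sup (Finset.mem_powerset.2 hσ)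
      rw [hB σ y (hb σ y (by omega) (a1 y hy))]
      exact a5 σ hn (hA.sub hσ))
  have sb : Sb H H0 := fun y hy => let ⟨_, _, _, h⟩ := b3 y hy; h.1
  refine ⟨H, (sb.trans a1).trans g1, b2, a3.mono ((red_ll _ _ _).join b1), S, a4,
    fun s hs hH => ?_⟩
  have hne : s.Nonempty := Finset.card_pos.1 (by omega)
  obtain ⟨A, -, e, -, h⟩ := b3 (s.max' hne) (hH _ (s.max'_mem hne))
  have := h (s.erase (s.max' hne)) (fun x hx => (e x).2 ⟨s.lt_max'_of_mem_erase_max' hne hx,
    hH x (Finset.mem_of_mem_erase hx)⟩) (by rw [Finset.card_erase_of_mem (s.max'_mem hne), hs]; rfl)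
  rwa [Finset.insert_erase (s.max'_mem hne)] at this

end Pool.Agent.P.MP_9014a2_lc.RR
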